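import Mathlib
import Pool.Agent.Helper52.VBBasic

/-!
Variance-balanced designs with block size 3: counting and the reduction to systems of triples.
-/

set_option autoImplicit false

namespace Pool.Agent.Helper52.VB

open Finset

variable {V W : Type} [DecidableEq V] [DecidableEq W]

/-- A triple of distinct points. -/
def Tri (B : Multiset V) : Prop := B.card = 3 ∧ B.Nodup

theorem Tri.map {B : Multiset V} (h : Tri B) {e : V → W} (he : Function.Injective e) :
    Tri (B.map e) := ⟨by rw [Multiset.card_map]; exact h.1, h.2.map he⟩

theorem conc_map {e : V → W} (he : Function.Injective e) (D : Multiset (Multiset V)) (i j : V) :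
    conc (D.map (Multiset.map e)) (e i) (e j) = conc D i j := by
  simp only [conc, Multiset.map_map, Function.comp_def]
  congr 1
  apply Multiset.map_congr rfl
  intro B _
  rw [Multiset.count_map_eq_count' e B he, Multiset.count_map_eq_count' e B he]

theorem conc_map_left {e : V → W} (D : Multiset (Multiset V)) {p : W} (hp : ∀ i, e i ≠ p) (q : W) :
    conc (D.map (Multiset.map e)) p q = 0 := by
  simp only [conc, Multiset.map_map, Function.comp_def]
  have : ∀ B : Multiset V, Multiset.count p (B.map e) = 0 := by
    intro B
    rw [Multiset.count_eq_zero, Multiset.mem_map]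
    rintro ⟨i, -, hi⟩
    exact hp i hi
  simp [this]

theorem conc_map_right {e : V → W} (D : Multiset (Multiset V)) {p : W} (hp : ∀ i, e i ≠ p) (q : W) :
    conc (D.map (Multiset.map e)) q p = 0 := by
  rw [conc_comm, conc_map_left D hp]

theorem one_le_conc {T : Multiset (Multiset V)} {B : Multiset V} (hB : B ∈ T) {p q : V}
    (hp : p ∈ B) (hq : q ∈ B) : 1 ≤ conc T p q := by
  obtain ⟨T', rfl⟩ := Multiset.exists_cons_of_mem hB
  have h1 : 1 ≤ B.count p := Multiset.one_le_count_iff_mem.2 hp
  have h2 : 1 ≤ B.count q := Multiset.one_le_count_iff_mem.2 hq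
  have : 1 ≤ B.count p * B.count q := Nat.one_le_iff_ne_zero.2 (Nat.mul_ne_zero (by omega) (by omega))
  simp only [conc, Multiset.map_cons, Multiset.sum_cons]
  omega

/-- Sum of `f p q` over the ordered pairs of distinct points. -/
def psum [Fintype V] (f : V → V → ℕ) : ℕ := ∑ p : V, ∑ q : V, if p = q then 0 else f p q

theorem psum_add [Fintype V] (f g : V → V → ℕ) : psum (fun p q => f p q + g p q) =
    psum f + psum g := by
  simp only [psum, ← Finset.sum_add_distrib]
  refine Finset.sum_congr rfl fun p _ => Finset.sum_congr rfl fun q _ => ?_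
  split_ifs <;> rfl

theorem psum_congr [Fintype V] {f g : V → V → ℕ} (h : ∀ p q, p ≠ q → f p q = g p q) :
    psum f = psum g := by
  refine Finset.sum_congr rfl fun p _ => Finset.sum_congr rfl fun q _ => ?_
  split_ifs with h1
  · rfl
  · exact h p q h1

theorem psum_const [Fintype V] (c : ℕ) : psum (fun _ _ : V => c) =
    c * (Fintype.card V * (Fintype.card V - 1)) := by
  have h : ∀ p : V, (∑ q : V, if p = q then 0 else c) = c * (Fintype.card V - 1) := by
    intro p
    have h1 : (∑ q : V, if p = q then 0 else c) = ∑ q ∈ univ.erase p, c := by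
      rw [← Finset.add_sum_erase univ _ (Finset.mem_univ p)]
      simp only [if_true, zero_add]
      refine Finset.sum_congr rfl fun q hq => ?_
      rw [if_neg (Finset.ne_of_mem_erase hq).symm]
    rw [h1, Finset.sum_const, Finset.card_erase_of_mem (Finset.mem_univ p), Finset.card_univ,
      smul_eq_mul, Nat.mul_comm]
  simp only [psum, h, Finset.sum_const, Finset.card_univ, smul_eq_mul]
  ring

theorem psum_eq_of_le [Fintype V] {f g : V → V → ℕ} (h : ∀ p q, p ≠ q → f p q ≤ g p q)
    (hs : psum g ≤ psum f) {p q : V} (hpq : p ≠ q) : g p q = f p q := by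
  have h1 : ∀ p q : V, (if p = q then 0 else f p q) ≤ if p = q then 0 else g p q := by
    intro p q
    split_ifs with h1
    · exact le_rfl
    · exact h p q h1
  have h2 : ∀ p : V, (∑ q : V, if p = q then 0 else f p q) ≤ ∑ q : V, if p = q then 0 else g p q :=
    fun p => Finset.sum_le_sum fun q _ => h1 p q
  have h3 : psum f = psum g := le_antisymm (Finset.sum_le_sum fun p _ => h2 p) hs
  have h4 := (Finset.sum_eq_sum_iff_of_le (fun p _ => h2 p)).1 h3 p (Finset.mem_univ p)
  have h5 := (Finset.sum_eq_sum_iff_of_le (fun q _ => h1 p q)).1 h4 q (Finset.mem_univ q)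
  simpa [hpq] using h5.symm

theorem psum_mono [Fintype V] {f g : V → V → ℕ} (h : ∀ p q, p ≠ q → f p q ≤ g p q) :
    psum f ≤ psum g := by
  refine Finset.sum_le_sum fun p _ => Finset.sum_le_sum fun q _ => ?_
  split_ifs with h1
  · exact le_rfl
  · exact h p q h1

theorem sum_count [Fintype V] (B : Multiset V) : ∑ p : V, B.count p = B.card := by
  simpa using Multiset.sum_count_eq_card (s := univ) (m := B) (fun a _ => Finset.mem_univ a)

/-- the contribution of one block -/
theorem psum_block [Fintype V] (B : Multiset V) :
    psum (fun p q => B.count p * B.count q) + ∑ p : V, B.count p * B.count p = B.card * B.card := by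
  have h : ∀ p : V, (∑ q : V, if p = q then 0 else B.count p * B.count q) + B.count p * B.count p
      = B.count p * B.card := by
    intro p
    rw [← sum_count B, Finset.mul_sum, ← Finset.add_sum_erase univ _ (Finset.mem_univ p),
      ← Finset.add_sum_erase univ (fun q => B.count p * B.count q) (Finset.mem_univ p)]
    simp only [if_true, zero_add]
    rw [Nat.add_comm]
    congr 1
    refine Finset.sum_congr rfl fun q hq => ?_
    rw [if_neg (Finset.ne_of_mem_erase hq).symm]
  unfold psum
  rw [← Finset.sum_add_distrib, Finset.sum_congr rfl fun p _ => h p, ← Finset.sum_mul, sum_count]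

theorem psum_tri [Fintype V] {B : Multiset V} (hB : Tri B) :
    psum (fun p q => B.count p * B.count q) = 6 := by
  have h := psum_block B
  have h1 : ∀ p, B.count p * B.count p = B.count p := by
    intro p
    have := Multiset.nodup_iff_count_le_one.1 hB.2 p
    interval_cases h : B.count p <;> rfl
  rw [Finset.sum_congr rfl fun p _ => h1 p, sum_count, hB.1] at h
  omega

theorem card_sum_count {B : Multiset V} (hB : B.card = 3) (i : V) : B.count i ≤ 3 := by
  rw [← hB]; exact Multiset.count_le_card i B

/-- a non-binary block of size 3 is `{i, i, j}` -/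
theorem nonbinary_form {B : Multiset V} (h3 : B.card = 3) (h : ∀ i : V, B ≠ Multiset.replicate 3 i)
    (hn : ¬ B.Nodup) : ∃ i j, i ≠ j ∧ B = {i, i, j} := by
  rw [Multiset.card_eq_three] at h3
  obtain ⟨x, y, z, rfl⟩ := h3
  by_cases hxy : x = y
  · subst hxy
    by_cases hxz : x = z
    · subst hxz
      exact absurd rfl (h x)
    · exact ⟨x, z, hxz, rfl⟩
  · by_cases hxz : x = z
    · subst hxz
      refine ⟨x, y, hxy, ?_⟩
      show x ::ₘ y ::ₘ {x} = x ::ₘ x ::ₘ {y}
      congr 1
      exact Multiset.cons_swap _ _ _
    · by_cases hyz : y = z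
      · subst hyz
        refine ⟨y, x, fun h => hxy h.symm, ?_⟩
        show x ::ₘ y ::ₘ {y} = y ::ₘ y ::ₘ {x}
        rw [Multiset.cons_swap]
        congr 1
        exact Multiset.cons_swap _ _ _
      · exfalso
        apply hn
        simp [hxy, hxz, hyz]

theorem isBlock_of_tri {B : Multiset V} (hB : Tri B) : IsBlock 3 B := by
  refine ⟨hB.1, fun i h => ?_⟩
  have := hB.2
  rw [h, Multiset.nodup_iff_count_le_one] at this
  have := this i
  simp at this

theorem isBlock_pair {i j : V} (h : i ≠ j) : IsBlock 3 ({i, i, j} : Multiset V) := by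
  refine ⟨by simp, fun x hx => ?_⟩
  have h1 : i ∈ ({i, i, j} : Multiset V) := by simp
  have h2 : j ∈ ({i, i, j} : Multiset V) := by simp
  rw [hx, Multiset.mem_replicate] at h1 h2
  exact h (h1.2.trans h2.2.symm)

theorem not_nodup_pair (i j : V) : ¬ ({i, i, j} : Multiset V).Nodup := by
  intro h
  rw [Multiset.nodup_iff_count_le_one] at h
  have := h i
  simp at this

theorem psum_pair [Fintype V] {i j : V} (h : i ≠ j) :
    psum (fun p q => ({i, i, j} : Multiset V).count p * ({i, i, j} : Multiset V).count q) = 4 := by
  have h1 := psum_block ({i, i, j} : Multiset V)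
  have h2 : ∑ p : V, ({i, i, j} : Multiset V).count p * ({i, i, j} : Multiset V).count p = 5 := by
    have : ∀ p : V, ({i, i, j} : Multiset V).count p * ({i, i, j} : Multiset V).count p =
        (if p = i then 4 else 0) + if p = j then 1 else 0 := by
      intro p
      simp only [Multiset.insert_eq_cons, Multiset.count_cons, Multiset.count_singleton]
      by_cases hi : p = i
      · have hj : p ≠ j := fun h' => h (hi.symm.trans h')
        simp [hi, h]
      · by_cases hj : p = j
        · simp [hj, h.symm]
        · simp [hi, hj]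
    rw [Finset.sum_congr rfl fun p _ => this p, Finset.sum_add_distrib]
    simp
  rw [h2] at h1
  simp at h1
  omega

theorem psum_conc_cons [Fintype V] (B : Multiset V) (D : Multiset (Multiset V)) :
    psum (conc (B ::ₘ D)) = psum (fun p q => B.count p * B.count q) + psum (conc D) := by
  rw [← psum_add]
  apply psum_congr
  intro p q _
  simp [conc]

/-- Counting for a system of triples. -/
theorem psum_conc_tri [Fintype V] (T : Multiset (Multiset V)) (hT : ∀ B ∈ T, Tri B) :
    psum (conc T) = 6 * T.card := by
  induction T using Multiset.induction_on with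
  | empty => simp [psum, conc_zero]
  | cons B T ih =>
    rw [psum_conc_cons, psum_tri (hT B (Multiset.mem_cons_self B T)),
      ih fun B' h => hT B' (Multiset.mem_cons_of_mem h), Multiset.card_cons]
    ring

/-- Counting for a system of non-binary blocks. -/
theorem psum_conc_pair [Fintype V] (T : Multiset (Multiset V))
    (hT : ∀ B ∈ T, ∃ i j, i ≠ j ∧ B = {i, i, j}) :
    psum (conc T) = 4 * T.card := by
  induction T using Multiset.induction_on with
  | empty => simp [psum, conc_zero]
  | cons B T ih =>
    obtain ⟨i, j, hij, rfl⟩ := hT B (Multiset.mem_cons_self B T)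
    rw [psum_conc_cons, psum_pair hij,
      ih fun B' h => hT B' (Multiset.mem_cons_of_mem h), Multiset.card_cons]
    ring

/-- If the concurrences are bounded below by `g` and the sum is right, they are equal to `g`. -/
theorem conc_exact [Fintype V] (T : Multiset (Multiset V)) (hT : ∀ B ∈ T, Tri B)
    (g : V → V → ℕ) (hg : ∀ p q, p ≠ q → g p q ≤ conc T p q) (hs : 6 * T.card ≤ psum g)
    {p q : V} (hpq : p ≠ q) : conc T p q = g p q :=
  psum_eq_of_le hg (by rw [psum_conc_tri T hT]; exact hs) hpq

end Pool.Agent.Helper52.VB
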