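import Mathlib
import Pool.Agent.Helper52.VB3.Base

/-!
Systems of triples in which every pair of points is covered 0 or 2 times.
-/

set_option autoImplicit false

namespace Pool.Agent.Helper52.VB

open Finset

/-- There is a system of `2 s` triples covering each pair 0 or 2 times. -/
def E2 (V : Type) [DecidableEq V] (s : ℕ) : Prop :=
  ∃ T : Multiset (Multiset V), (∀ B ∈ T, Tri B) ∧ T.card = 2 * s ∧
    ∀ i j, i ≠ j → conc T i j = 0 ∨ conc T i j = 2

theorem E2.map {V W : Type} [DecidableEq V] [DecidableEq W] {s : ℕ} (h : E2 V s) {e : V → W}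
    (he : Function.Injective e) : E2 W s := by
  obtain ⟨T, h1, h2, h3⟩ := h
  refine ⟨T.map (Multiset.map e), ?_, ?_, ?_⟩
  · intro B hB
    obtain ⟨B', hB', rfl⟩ := Multiset.mem_map.1 hB
    exact (h1 B' hB').map he
  · rw [Multiset.card_map, h2]
  · intro p q hpq
    by_cases hp : ∃ i, e i = p
    · by_cases hq : ∃ i, e i = q
      · obtain ⟨i, rfl⟩ := hp
        obtain ⟨j, rfl⟩ := hq
        rw [conc_map he]
        exact h3 i j fun h => hpq (by rw [h])
      · left
        exact conc_map_right T (fun i hi => hq ⟨i, hi⟩) p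
    · left
      exact conc_map_left T (fun i hi => hp ⟨i, hi⟩) q

/-- An idempotent quasigroup structure (only surjectivity is recorded). -/
def IQ (Q : Type) : Prop :=
  ∃ op : Q → Q → Q, (∀ a, op a a = a) ∧ (∀ a c, ∃ b, op a b = c) ∧ ∀ b c, ∃ a, op a b = c

theorem half {m : ℕ} (hm : Odd m) : ∃ h : ZMod m, 2 * h = 1 := by
  have hcop : Nat.Coprime 2 m := Nat.coprime_two_left.2 hm
  refine ⟨(2 : ZMod m)⁻¹, ?_⟩
  have := ZMod.coe_mul_inv_eq_one 2 hcop
  simpa using this

theorem iq_odd {m : ℕ} (hm : Odd m) : IQ (ZMod m) := by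
  obtain ⟨h, hh⟩ := half hm
  refine ⟨fun a b => h * (a + b), fun a => by linear_combination a * hh, fun a c => ?_,
    fun b c => ?_⟩
  · exact ⟨2 * c - a, by linear_combination c * hh⟩
  · exact ⟨2 * c - b, by linear_combination c * hh⟩

theorem iq_even {m : ℕ} (hm : Odd m) (h3 : 3 ≤ m) : IQ (Option (ZMod m)) := by
  obtain ⟨h, hh⟩ := half hm
  have : Fact (1 < m) := ⟨by omega⟩
  have h01 : (1 : ZMod m) ≠ 0 := one_ne_zero
  refine ⟨fun p q => match p, q with
    | some x, some y => if y = x + 1 then none else some (h * (x + y))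
    | some x, none => some (x + h)
    | none, some y => some (y - h)
    | none, none => none, ?_, ?_, ?_⟩
  · rintro (_ | x)
    · rfl
    · have : x ≠ x + 1 := fun h' => h01 (by linear_combination -h')
      simp only [if_neg this]
      congr 1
      linear_combination x * hh
  · rintro (_ | x) (_ | z)
    · exact ⟨none, rfl⟩
    · exact ⟨some (z + h), by simp⟩
    · exact ⟨some (x + 1), by simp⟩
    · by_cases hc : z = x + h
      · exact ⟨none, by simp [hc]⟩
      · refine ⟨some (2 * z - x), ?_⟩
        have : 2 * z - x ≠ x + 1 := by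
          intro h'
          apply hc
          linear_combination h * h' + (x - z) * hh
        simp only [if_neg this]
        congr 1
        linear_combination z * hh
  · rintro (_ | y) (_ | z)
    · exact ⟨none, rfl⟩
    · exact ⟨some (z - h), by simp⟩
    · exact ⟨some (y - 1), by simp⟩
    · by_cases hc : z = y - h
      · exact ⟨none, by simp [hc]⟩
      · refine ⟨some (2 * z - y), ?_⟩
        have : y ≠ 2 * z - y + 1 := by
          intro h'
          apply hc
          linear_combination (- h) * h' - (z - y) * hh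
        simp only [if_neg this]
        congr 1
        linear_combination z * hh

/-- For every `n ≠ 0, 2` there is an idempotent quasigroup of order `n`. -/
theorem exists_iq {n : ℕ} (h0 : n ≠ 0) (h2 : n ≠ 2) :
    ∃ (Q : Type) (_ : DecidableEq Q) (_ : Fintype Q), Fintype.card Q = n ∧ IQ Q := by
  rcases Nat.even_or_odd n with he | ho
  · obtain ⟨m, rfl⟩ : ∃ m, n = m + 1 := ⟨n - 1, by omega⟩
    have hm : Odd m := by
      rcases Nat.even_or_odd m with h | h
      · exfalso
        rw [Nat.even_add_one] at he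
        exact he h
      · exact h
    have h3 : 3 ≤ m := by
      rcases hm with ⟨t, ht⟩
      omega
    have : NeZero m := ⟨by omega⟩
    exact ⟨Option (ZMod m), inferInstance, inferInstance, by simp [ZMod.card], iq_even hm h3⟩
  · have : NeZero n := ⟨h0⟩
    exact ⟨ZMod n, inferInstance, inferInstance, ZMod.card n, iq_odd ho⟩

/-- lower bound for concurrences in indexed systems -/
theorem two_le_conc {V ι : Type} [DecidableEq V] (I : Finset ι) (blk : ι → Multiset V) {p q : V}
    {a b : ι} (ha : a ∈ I) (hb : b ∈ I) (hab : a ≠ b) (h1 : p ∈ blk a) (h2 : q ∈ blk a)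
    (h3 : p ∈ blk b) (h4 : q ∈ blk b) : 2 ≤ conc (I.val.map blk) p q := by
  classical
  have e : conc (I.val.map blk) p q = ∑ i ∈ I, (blk i).count p * (blk i).count q := by
    simp only [conc, Multiset.map_map, Function.comp_def]
    rfl
  rw [e]
  have hs : ({a, b} : Finset ι) ⊆ I := by
    intro x hx
    rcases Finset.mem_insert.1 hx with rfl | hx
    · exact ha
    · rw [Finset.mem_singleton.1 hx]; exact hb
  have hle := Finset.sum_le_sum_of_subset (f := fun i => (blk i).count p * (blk i).count q) hs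
  rw [Finset.sum_pair hab] at hle
  have c1 := Multiset.one_le_count_iff_mem.2 h1
  have c2 := Multiset.one_le_count_iff_mem.2 h2
  have c3 := Multiset.one_le_count_iff_mem.2 h3
  have c4 := Multiset.one_le_count_iff_mem.2 h4
  have := Nat.mul_le_mul c1 c2
  have := Nat.mul_le_mul c3 c4
  omega

/-- local systems on the three points of a column and `w` further points -/
theorem local_sys : ∀ w < 3, ∀ s ≤ w + 1, ∃ L : Multiset (Multiset (Fin 3 ⊕ Fin w)),
    (∀ B ∈ L, Tri B) ∧ L.card = 2 * s ∧ (∀ i j, i ≠ j → conc L i j = 0 ∨ conc L i j = 2) ∧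
    ∀ k l : Fin w, k ≠ l → conc L (Sum.inr k) (Sum.inr l) = 0 := by
  intro w hw s hs
  interval_cases w
  · interval_cases s
    · exact ⟨0, by simp, by simp, by simp [conc_zero], by simp [conc_zero]⟩
    · refine ⟨{{Sum.inl 0, Sum.inl 1, Sum.inl 2}, {Sum.inl 0, Sum.inl 1, Sum.inl 2}}, ?_, ?_, ?_, ?_⟩
      · simp [Tri]
      · rfl
      · decide
      · decide
  · interval_cases s
    · exact ⟨0, by simp, by simp, by simp [conc_zero], by simp [conc_zero]⟩
    · refine ⟨{{Sum.inl 0, Sum.inl 1, Sum.inl 2}, {Sum.inl 0, Sum.inl 1, Sum.inl 2}}, ?_, ?_, ?_, ?_⟩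
      · simp [Tri]
      · rfl
      · decide
      · decide
    · refine ⟨{{Sum.inl 0, Sum.inl 1, Sum.inl 2}, {Sum.inl 0, Sum.inl 1, Sum.inr 0},
        {Sum.inl 0, Sum.inl 2, Sum.inr 0}, {Sum.inl 1, Sum.inl 2, Sum.inr 0}}, ?_, ?_, ?_, ?_⟩
      · simp [Tri]
      · rfl
      · decide
      · decide
  · interval_cases s
    · exact ⟨0, by simp, by simp, by simp [conc_zero], by simp [conc_zero]⟩
    · refine ⟨{{Sum.inl 0, Sum.inl 1, Sum.inl 2}, {Sum.inl 0, Sum.inl 1, Sum.inl 2}}, ?_, ?_, ?_, ?_⟩
      · simp [Tri]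
      · rfl
      · decide
      · decide
    · refine ⟨{{Sum.inl 0, Sum.inl 1, Sum.inr 0}, {Sum.inl 0, Sum.inl 1, Sum.inr 0},
        {Sum.inl 0, Sum.inl 2, Sum.inr 1}, {Sum.inl 0, Sum.inl 2, Sum.inr 1}}, ?_, ?_, ?_, ?_⟩
      · simp [Tri]
      · rfl
      · decide
      · decide
    · refine ⟨{{Sum.inl 0, Sum.inl 1, Sum.inr 0}, {Sum.inl 0, Sum.inl 2, Sum.inr 0},
        {Sum.inl 1, Sum.inl 2, Sum.inr 0}, {Sum.inl 0, Sum.inl 1, Sum.inr 1},
        {Sum.inl 0, Sum.inl 2, Sum.inr 1}, {Sum.inl 1, Sum.inl 2, Sum.inr 1}}, ?_, ?_, ?_, ?_⟩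
      · simp [Tri]
      · rfl
      · decide
      · decide

theorem exists_split {Q : Type} [DecidableEq Q] (F : Finset Q) (m : ℕ) :
    ∀ t ≤ m * F.card, ∃ c : Q → ℕ, (∀ x, c x ≤ m) ∧ ∑ x ∈ F, c x = t := by
  induction F using Finset.induction_on with
  | empty =>
    intro t ht
    simp at ht
    exact ⟨fun _ => 0, by simp, by simp [ht]⟩
  | insert a F ha ih =>
    intro t ht
    rw [Finset.card_insert_of_notMem ha] at ht
    obtain ⟨c, hc, hs⟩ := ih (t - min t m) (by
      rcases le_total t m with h | h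
      · simp [h]
      · rw [min_eq_right h]
        have : m * (F.card + 1) = m * F.card + m := by ring
        omega)
    refine ⟨fun x => if x = a then min t m else c x, ?_, ?_⟩
    · intro x
      dsimp only
      split_ifs
      · exact min_le_right _ _
      · exact hc x
    · rw [Finset.sum_insert ha]
      simp only [if_true]
      have : ∑ x ∈ F, (if x = a then min t m else c x) = ∑ x ∈ F, c x := by
        refine Finset.sum_congr rfl fun x hx => ?_
        rw [if_neg]
        rintro rfl
        exact ha hx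
      rw [this, hs]
      have := min_le_left t m
      omega

end Pool.Agent.Helper52.VB
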