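import Mathlib
import Pool.Agent.Helper52.VB3.Two

/-!
The main construction of two-fold systems on `3 n + w` points.
-/

set_option autoImplicit false

namespace Pool.Agent.Helper52.VB

open Finset

/-- points: `n` columns of three points and `w` further points -/
abbrev Pt (Q : Type) (w : ℕ) := (Q × Fin 3) ⊕ Fin w

/-- cross blocks -/
def crossBlk {Q : Type} (w : ℕ) (op : Q → Q → Q) (t : (Q × Q) × Fin 3) : Multiset (Pt Q w) :=
  {Sum.inl (t.1.1, t.2), Sum.inl (t.1.2, t.2), Sum.inl (op t.1.1 t.1.2, t.2 + 1)}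

/-- the concurrences of the cross system -/
def gcross {Q : Type} [DecidableEq Q] {w : ℕ} : Pt Q w → Pt Q w → ℕ
  | Sum.inl (a, _), Sum.inl (b, _) => if a = b then 0 else 2
  | _, _ => 0

variable {Q : Type} [DecidableEq Q] [Fintype Q] {w : ℕ}

theorem fin3_ne (i : Fin 3) : i ≠ i + 1 := by revert i; decide

theorem fin3_cases (i j : Fin 3) : j = i ∨ j = i + 1 ∨ i = j + 1 := by revert i j; decide

theorem tri_triple {V : Type} [DecidableEq V] {x y z : V} (h1 : x ≠ y) (h2 : x ≠ z) (h3 : y ≠ z) :
    Tri ({x, y, z} : Multiset V) := by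
  simp [Tri, h1, h2, h3]

theorem psum_gcross : psum (gcross : Pt Q w → Pt Q w → ℕ) =
    18 * (Fintype.card Q * (Fintype.card Q - 1)) := by
  have h1 : psum (gcross : Pt Q w → Pt Q w → ℕ) = ∑ p : Pt Q w, ∑ q : Pt Q w, gcross p q := by
    refine Finset.sum_congr rfl fun p _ => Finset.sum_congr rfl fun q _ => ?_
    split_ifs with h
    · subst h
      rcases p with ⟨a, i⟩ | k <;> simp [gcross]
    · rfl
  rw [h1]
  simp only [Fintype.sum_sum_type, Fintype.sum_prod_type, gcross, Finset.sum_const_zero, add_zero]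
  have h2 := psum_const (V := Q) 2
  unfold psum at h2
  simp only at h2
  have h3 : ∀ a : Q, (∑ _i : Fin 3, ∑ b : Q, ∑ _j : Fin 3, if a = b then 0 else 2) =
      9 * ∑ b : Q, if a = b then 0 else 2 := by
    intro a
    simp only [Finset.sum_const, Finset.card_univ, Fintype.card_fin, smul_eq_mul,
      ← Finset.mul_sum]
    ring
  rw [Finset.sum_congr rfl fun a _ => h3 a, ← Finset.mul_sum, h2]
  ring

theorem cross_exists (op : Q → Q → Q) (h1 : ∀ a, op a a = a) (h2 : ∀ a c, ∃ b, op a b = c)
    (h3 : ∀ b c, ∃ a, op a b = c) : ∃ T : Multiset (Multiset (Pt Q w)), (∀ B ∈ T, Tri B) ∧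
    T.card = 3 * (Fintype.card Q * (Fintype.card Q - 1)) ∧
    ∀ p q, p ≠ q → conc T p q = gcross p q := by
  let I : Finset ((Q × Q) × Fin 3) := (univ : Finset Q).offDiag ×ˢ (univ : Finset (Fin 3))
  have hI : ∀ x y : Q, x ≠ y → ∀ i : Fin 3, ((x, y), i) ∈ I := by
    intro x y hxy i
    simp [I, hxy]
  have hT : ∀ B ∈ I.val.map (crossBlk w op), Tri B := by
    intro B hB
    obtain ⟨⟨⟨x, y⟩, i⟩, ht, rfl⟩ := Multiset.mem_map.1 hB
    have hxy : x ≠ y := by
      have : ((x, y), i) ∈ I := ht
      simpa [I] using this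
    apply tri_triple
    · simp [hxy]
    · intro h
      exact fin3_ne i (congrArg Prod.snd (Sum.inl.inj h))
    · intro h
      exact fin3_ne i (congrArg Prod.snd (Sum.inl.inj h))
  have hc : (I.val.map (crossBlk w op)).card = 3 * (Fintype.card Q * (Fintype.card Q - 1)) := by
    rw [Multiset.card_map]
    change I.card = _
    rw [Finset.card_product, Finset.offDiag_card, Finset.card_univ, Finset.card_univ,
      Fintype.card_fin, Nat.mul_sub_one]
    ring
  refine ⟨I.val.map (crossBlk w op), hT, hc, ?_⟩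
  intro p q hpq
  refine conc_exact _ hT gcross ?_ ?_ hpq
  · rintro (⟨a, i⟩ | k) (⟨b, j⟩ | l) hpq
    · by_cases hab : a = b
      · simp [gcross, hab]
      · simp only [gcross, if_neg hab]
        rcases fin3_cases i j with rfl | rfl | rfl
        · exact two_le_conc I _ (hI a b hab j) (hI b a (Ne.symm hab) j)
            (by simp [hab]) (by simp [crossBlk]) (by simp [crossBlk])
            (by simp [crossBlk]) (by simp [crossBlk])
        · obtain ⟨y, hy⟩ := h2 a b
          obtain ⟨x, hx⟩ := h3 a b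
          have hya : a ≠ y := by
            rintro rfl
            exact hab ((h1 a).symm.trans hy)
          have hxa : x ≠ a := by
            rintro rfl
            exact hab ((h1 x).symm.trans hx)
          exact two_le_conc I _ (hI a y hya i) (hI x a hxa i)
            (by simp [Ne.symm hxa]) (by simp [crossBlk]) (by simp [crossBlk, hy])
            (by simp [crossBlk]) (by simp [crossBlk, hx])
        · obtain ⟨y, hy⟩ := h2 b a
          obtain ⟨x, hx⟩ := h3 b a
          have hyb : b ≠ y := by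
            rintro rfl
            exact hab (((h1 b).symm.trans hy).symm)
          have hxb : x ≠ b := by
            rintro rfl
            exact hab (((h1 x).symm.trans hx).symm)
          exact two_le_conc I _ (hI b y hyb j) (hI x b hxb j)
            (by simp [Ne.symm hxb]) (by simp [crossBlk, hy]) (by simp [crossBlk])
            (by simp [crossBlk, hx]) (by simp [crossBlk])
    · simp [gcross]
    · simp [gcross]
    · simp [gcross]
  · rw [hc, psum_gcross]
    exact le_of_eq (by ring)

/-- the embedding of a column -/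
def colEmb (w : ℕ) (x : Q) : Fin 3 ⊕ Fin w → Pt Q w
  | Sum.inl j => Sum.inl (x, j)
  | Sum.inr k => Sum.inr k

omit [DecidableEq Q] [Fintype Q] in
theorem colEmb_inj (x : Q) : Function.Injective (colEmb w x) := by
  rintro (i | i) (j | j) h
  · simp [colEmb] at h; rw [h]
  · simp [colEmb] at h
  · simp [colEmb] at h
  · simp [colEmb] at h; rw [h]

omit [DecidableEq Q] [Fintype Q] in
theorem colEmb_ne {x a : Q} (h : x ≠ a) (j : Fin 3) (y : Fin 3 ⊕ Fin w) :
    colEmb w x y ≠ Sum.inl (a, j) := by
  rcases y with i | k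
  · simp [colEmb, h]
  · simp [colEmb]

theorem two_construct (hQ : IQ Q) (hw : w < 3) (t : ℕ) (ht : t ≤ (w + 1) * Fintype.card Q) :
    ∃ T : Multiset (Multiset (Pt Q w)), (∀ B ∈ T, Tri B) ∧
      T.card = 3 * (Fintype.card Q * (Fintype.card Q - 1)) + 2 * t ∧
      ∀ p q, p ≠ q → conc T p q = 0 ∨ conc T p q = 2 := by
  obtain ⟨op, h1, h2, h3⟩ := hQ
  obtain ⟨T, hT, hTc, hTg⟩ := cross_exists (w := w) op h1 h2 h3
  obtain ⟨c, hc, hcs⟩ := exists_split (univ : Finset Q) (w + 1) t ht
  choose L hL1 hL2 hL3 hL4 using fun x : Q => local_sys w hw (c x) (hc x)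
  refine ⟨T + ∑ x : Q, (L x).map (Multiset.map (colEmb w x)), ?_, ?_, ?_⟩
  · intro B hB
    rcases Multiset.mem_add.1 hB with h | h
    · exact hT B h
    · rw [Multiset.mem_sum] at h
      obtain ⟨x, -, hx⟩ := h
      obtain ⟨B', hB', rfl⟩ := Multiset.mem_map.1 hx
      exact (hL1 x B' hB').map (colEmb_inj x)
  · rw [Multiset.card_add, hTc, Multiset.card_sum]
    simp only [Multiset.card_map, hL2]
    rw [← Finset.mul_sum, hcs]
  · rintro (⟨a, i⟩ | k) (⟨b, j⟩ | l) hpq
    · rw [conc_add, hTg _ _ hpq, conc_sum]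
      by_cases hab : a = b
      · subst hab
        rw [Finset.sum_eq_single a]
        · have e1 : (Sum.inl (a, i) : Pt Q w) = colEmb w a (Sum.inl i) := rfl
          have e2 : (Sum.inl (a, j) : Pt Q w) = colEmb w a (Sum.inl j) := rfl
          rw [e1, e2, conc_map (colEmb_inj a)]
          simp only [colEmb, gcross, if_true, zero_add]
          apply hL3
          intro h
          apply hpq
          rw [Sum.inl.inj h]
        · intro x _ hx
          exact conc_map_left _ (fun y => colEmb_ne hx i y) _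
        · intro h
          exact absurd (Finset.mem_univ _) h
      · right
        rw [Finset.sum_eq_zero]
        · simp [gcross, hab]
        · intro x _
          by_cases hx : x = a
          · exact conc_map_right _ (fun y => colEmb_ne (by rw [hx]; exact hab) j y) _
          · exact conc_map_left _ (fun y => colEmb_ne hx i y) _
    · rw [conc_add, hTg _ _ hpq, conc_sum, Finset.sum_eq_single a]
      · have e1 : (Sum.inl (a, i) : Pt Q w) = colEmb w a (Sum.inl i) := rfl
        have e2 : (Sum.inr l : Pt Q w) = colEmb w a (Sum.inr l) := rfl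
        rw [e1, e2, conc_map (colEmb_inj a)]
        simp only [colEmb, gcross, zero_add]
        apply hL3
        simp
      · intro x _ hx
        exact conc_map_left _ (fun y => colEmb_ne hx i y) _
      · intro h
        exact absurd (Finset.mem_univ _) h
    · rw [conc_add, hTg _ _ hpq, conc_sum, Finset.sum_eq_single b]
      · have e1 : (Sum.inr k : Pt Q w) = colEmb w b (Sum.inr k) := rfl
        have e2 : (Sum.inl (b, j) : Pt Q w) = colEmb w b (Sum.inl j) := rfl
        rw [e1, e2, conc_map (colEmb_inj b)]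
        simp only [colEmb, gcross, zero_add]
        apply hL3
        simp
      · intro x _ hx
        exact conc_map_right _ (fun y => colEmb_ne hx j y) _
      · intro h
        exact absurd (Finset.mem_univ _) h
    · left
      rw [conc_add, hTg _ _ hpq, conc_sum, Finset.sum_eq_zero]
      · rfl
      · intro x _
        have e1 : (Sum.inr k : Pt Q w) = colEmb w x (Sum.inr k) := rfl
        have e2 : (Sum.inr l : Pt Q w) = colEmb w x (Sum.inr l) := rfl
        rw [e1, e2, conc_map (colEmb_inj x)]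
        apply hL4
        intro h
        exact hpq (by rw [h])

theorem two_fin {n : ℕ} (h0 : n ≠ 0) (h2 : n ≠ 2) (hw : w < 3) (t s : ℕ) (ht : t ≤ (w + 1) * n)
    (hs : 2 * s = 3 * (n * (n - 1)) + 2 * t) : E2 (Fin (3 * n + w)) s := by
  obtain ⟨Q, _, _, hQc, hQ⟩ := exists_iq h0 h2
  obtain ⟨T, h1, h2, h3⟩ := two_construct hQ hw t (by rw [hQc]; exact ht)
  have hcard : Fintype.card (Pt Q w) = 3 * n + w := by
    simp only [Fintype.card_sum, Fintype.card_prod, Fintype.card_fin, hQc]
    ring
  exact E2.map (V := Pt Q w) ⟨T, h1, by rw [h2, hQc, hs], h3⟩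
    (Fintype.equivFinOfCardEq hcard).injective

theorem e2_six_four : E2 (Fin 6) 4 :=
  ⟨{{0, 2, 4}, {0, 3, 5}, {1, 2, 5}, {1, 3, 4}, {0, 2, 4}, {0, 3, 5}, {1, 2, 5}, {1, 3, 4}},
    by simp [Tri], rfl, by decide⟩

theorem e2_six_five : E2 (Fin 6) 5 :=
  ⟨{{0, 1, 2}, {0, 1, 3}, {0, 2, 4}, {0, 3, 5}, {0, 4, 5}, {1, 2, 5}, {1, 3, 4}, {1, 4, 5},
    {2, 3, 4}, {2, 3, 5}}, by simp [Tri], rfl, by decide⟩

theorem e2_seven_six : E2 (Fin 7) 6 :=
  ⟨{{0, 1, 3}, {1, 2, 4}, {2, 3, 5}, {3, 4, 6}, {4, 5, 0}, {5, 6, 1},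
    {0, 1, 3}, {1, 2, 4}, {2, 3, 5}, {3, 4, 6}, {4, 5, 0}, {5, 6, 1}}, by simp [Tri], rfl,
    by decide⟩

theorem e2_seven_seven : E2 (Fin 7) 7 :=
  ⟨{{0, 1, 3}, {1, 2, 4}, {2, 3, 5}, {3, 4, 6}, {4, 5, 0}, {5, 6, 1}, {6, 0, 2},
    {0, 1, 3}, {1, 2, 4}, {2, 3, 5}, {3, 4, 6}, {4, 5, 0}, {5, 6, 1}, {6, 0, 2}},
    by simp [Tri], rfl, by decide⟩

theorem e2_eight_eight : E2 (Fin 8) 8 :=
  ⟨{{0, 1, 2}, {3, 4, 5}, {0, 3, 6}, {1, 4, 7}, {1, 5, 6}, {2, 3, 7}, {0, 5, 7}, {2, 4, 6},
    {0, 1, 2}, {3, 4, 5}, {0, 3, 6}, {1, 4, 7}, {1, 5, 6}, {2, 3, 7}, {0, 5, 7}, {2, 4, 6}},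
    by simp [Tri], rfl, by decide⟩

theorem e2_eight_nine : E2 (Fin 8) 9 :=
  ⟨{{0, 1, 2}, {0, 1, 2}, {0, 3, 4}, {0, 3, 6}, {0, 4, 6}, {0, 5, 7}, {0, 5, 7}, {1, 3, 5},
    {1, 3, 6}, {1, 4, 7}, {1, 4, 7}, {1, 5, 6}, {2, 3, 7}, {2, 3, 7}, {2, 4, 5}, {2, 4, 6},
    {2, 5, 6}, {3, 4, 5}}, by simp [Tri], rfl, by decide⟩

/-- Two-fold systems of every possible size. -/
theorem e2_all : ∀ v : ℕ, 3 ≤ v → ∀ s, 6 * s ≤ v * (v - 1) → E2 (Fin v) s := by
  intro v
  induction v with
  | zero => intro h; omega
  | succ u ih =>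
    intro hv s hs
    by_cases hu : 3 ≤ u ∧ 6 * s ≤ u * (u - 1)
    · exact (ih hu.1 s hu.2).map (Fin.castSucc_injective u)
    · have hv' : ∃ n w, u + 1 = 3 * n + w ∧ w < 3 := ⟨(u + 1) / 3, (u + 1) % 3, by omega, by omega⟩
      obtain ⟨n, w, hnw, hw⟩ := hv'
      have hn0 : n ≠ 0 := by omega
      by_cases hn2 : n = 2
      · subst hn2
        interval_cases w
        · obtain rfl : u = 5 := by omega
          have : s = 4 ∨ s = 5 := by omega
          rcases this with rfl | rfl
          · exact e2_six_four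
          · exact e2_six_five
        · obtain rfl : u = 6 := by omega
          have : s = 6 ∨ s = 7 := by omega
          rcases this with rfl | rfl
          · exact e2_seven_six
          · exact e2_seven_seven
        · obtain rfl : u = 7 := by omega
          have : s = 8 ∨ s = 9 := by omega
          rcases this with rfl | rfl
          · exact e2_eight_eight
          · exact e2_eight_nine
      · rw [hnw]
        obtain ⟨h, hh⟩ : ∃ h, n * (n - 1) = 2 * h := by
          have := Nat.even_mul_pred_self n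
          obtain ⟨h, hh⟩ := this
          exact ⟨h, by omega⟩
        obtain ⟨m, rfl⟩ : ∃ m, n = m + 1 := ⟨n - 1, by omega⟩
        simp only [Nat.add_sub_cancel] at hh
        have hlow : 3 * h ≤ s := by
          by_cases h3 : 3 ≤ u
          · have h4 : u * (u - 1) < 6 * s := by
              by_contra hcon
              exact hu ⟨h3, by omega⟩
            have hu' : u = 3 * m + 2 + w := by omega
            have : u - 1 = 3 * m + 1 + w := by omega
            rw [this, hu'] at h4
            nlinarith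
          · have : m = 0 := by omega
            subst this
            have : h = 0 := by omega
            omega
        refine two_fin (by omega) hn2 hw (s - 3 * h) s ?_ ?_
        · have hu' : u = 3 * m + 2 + w := by omega
          have hs' : 6 * s ≤ (3 * m + 3 + w) * (3 * m + 2 + w) := by
            have e1 : u + 1 - 1 = 3 * m + 2 + w := by omega
            have e2 : u + 1 = 3 * m + 3 + w := by omega
            rw [e1, e2] at hs
            exact hs
          obtain ⟨d, rfl⟩ := Nat.exists_eq_add_of_le hlow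
          rw [Nat.add_sub_cancel_left]
          interval_cases w <;> by_contra hcon <;> push Not at hcon <;> nlinarith
        · simp only [Nat.add_sub_cancel]
          rw [hh]
          omega

end Pool.Agent.Helper52.VB
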