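import Mathlib
import Pool.Agent.Helper52.VB3.TwoB

/-!
Steiner triple systems and near-Steiner systems (block size 3).
-/

set_option autoImplicit false

namespace Pool.Agent.Helper52.VB

open Finset

/-- Half cross systems from commutative operations. -/
theorem crossHalf {n : ℕ} (w : ℕ) (op : Fin 3 → Fin n → Fin n → Fin n)
    (hcomm : ∀ i a b, op i a b = op i b a) :
    ∃ T : Multiset (Multiset (Pt (Fin n) w)), (∀ B ∈ T, Tri B) ∧ 2 * T.card = 3 * (n * (n - 1)) ∧
      ∀ x y, x ≠ y → ∀ i : Fin 3,
        ({Sum.inl (x, i), Sum.inl (y, i), Sum.inl (op i x y, i + 1)} : Multiset _) ∈ T := by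
  classical
  let I0 : Finset (Fin n × Fin n) := univ.filter fun p => p.1 < p.2
  let I1 : Finset (Fin n × Fin n) := univ.filter fun p => p.2 < p.1
  have h01 : I0.card = I1.card := by
    apply Finset.card_nbij' Prod.swap Prod.swap
    · intro p hp
      simpa [I0, I1] using hp
    · intro p hp
      simpa [I0, I1] using hp
    · intro p _; rfl
    · intro p _; rfl
  have hun : I0.card + I1.card = n * (n - 1) := by
    have h1 : I0 ∪ I1 = (univ : Finset (Fin n)).offDiag := by
      ext p
      simp only [I0, I1, Finset.mem_union, Finset.mem_filter, Finset.mem_univ, true_and,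
        Finset.mem_offDiag]
      constructor
      · rintro (h | h)
        · exact ne_of_lt h
        · exact (ne_of_lt h).symm
      · intro h
        exact lt_or_gt_of_ne h
    have h2 : Disjoint I0 I1 := by
      rw [Finset.disjoint_left]
      intro p hp hq
      simp only [I0, I1, Finset.mem_filter, Finset.mem_univ, true_and] at hp hq
      exact absurd hp (not_lt.2 hq.le)
    rw [← Finset.card_union_of_disjoint h2, h1, Finset.offDiag_card, Finset.card_univ,
      Fintype.card_fin, Nat.mul_sub_one]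
  let blk : (Fin n × Fin n) × Fin 3 → Multiset (Pt (Fin n) w) := fun t =>
    {Sum.inl (t.1.1, t.2), Sum.inl (t.1.2, t.2), Sum.inl (op t.2 t.1.1 t.1.2, t.2 + 1)}
  let I : Finset ((Fin n × Fin n) × Fin 3) := I0 ×ˢ (univ : Finset (Fin 3))
  refine ⟨I.val.map blk, ?_, ?_, ?_⟩
  · intro B hB
    obtain ⟨⟨⟨x, y⟩, i⟩, ht, rfl⟩ := Multiset.mem_map.1 hB
    have hxy : x < y := by
      have : ((x, y), i) ∈ I := ht
      simpa [I, I0] using this
    apply tri_triple
    · simp [ne_of_lt hxy]
    · intro h
      exact fin3_ne i (congrArg Prod.snd (Sum.inl.inj h))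
    · intro h
      exact fin3_ne i (congrArg Prod.snd (Sum.inl.inj h))
  · rw [Multiset.card_map]
    change 2 * I.card = _
    rw [Finset.card_product, Finset.card_univ, Fintype.card_fin, ← hun]
    omega
  · intro x y hxy i
    rw [Multiset.mem_map]
    rcases lt_or_gt_of_ne hxy with h | h
    · refine ⟨((x, y), i), ?_, rfl⟩
      change ((x, y), i) ∈ I
      simp [I, I0, h]
    · refine ⟨((y, x), i), ?_, ?_⟩
      · change ((y, x), i) ∈ I
        simp [I, I0, h]
      · simp only [blk]
        rw [hcomm i y x]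
        exact Multiset.cons_swap _ _ _

/-- Steiner triple systems. -/
def STS (V : Type) [DecidableEq V] : Prop :=
  ∃ T : Multiset (Multiset V), (∀ B ∈ T, Tri B) ∧ ∀ i j, i ≠ j → conc T i j = 1

theorem STS.map {V W : Type} [DecidableEq V] [DecidableEq W] (h : STS V) (e : V ≃ W) : STS W := by
  obtain ⟨T, h1, h2⟩ := h
  refine ⟨T.map (Multiset.map e), ?_, ?_⟩
  · intro B hB
    obtain ⟨B', hB', rfl⟩ := Multiset.mem_map.1 hB
    exact (h1 B' hB').map e.injective
  · intro p q hpq
    rw [← e.apply_symm_apply p, ← e.apply_symm_apply q, conc_map e.injective]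
    exact h2 _ _ fun h => hpq (by simpa using h)

theorem exists_mid' {v : ℕ} (hv : Odd v) : ∃ m : Fin v → Fin v → Fin v,
    (∀ a b, m a b = m b a) ∧ (∀ a, m a a = a) ∧ ∀ a c, ∃ b, m a b = c := by
  have hv0 : NeZero v := ⟨by rintro rfl; exact absurd hv (by decide)⟩
  let e : Fin v ≃ ZMod v := (ZMod.finEquiv v).toEquiv
  obtain ⟨h, hh⟩ := half hv
  refine ⟨fun a b => e.symm (h * (e a + e b)), ?_, ?_, ?_⟩
  · intro a b
    simp only [add_comm]
  · intro a
    simp only
    rw [Equiv.symm_apply_eq]
    linear_combination (e a) * hh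
  · intro a c
    refine ⟨e.symm (2 * e c - e a), ?_⟩
    simp only [Equiv.apply_symm_apply]
    rw [Equiv.symm_apply_eq]
    linear_combination (e c) * hh

/-- orders `3 n`, `n` odd (Bose) -/
theorem sts_bose {n : ℕ} (hn : Odd n) : STS (Pt (Fin n) 0) := by
  obtain ⟨op, hc, hi, hs⟩ := exists_mid' hn
  obtain ⟨T0, h1, h2, h3⟩ := crossHalf 0 (fun _ => op) (fun _ => hc)
  let T1 : Multiset (Multiset (Pt (Fin n) 0)) := (univ : Finset (Fin n)).val.map fun x =>
    {Sum.inl (x, 0), Sum.inl (x, 1), Sum.inl (x, 2)}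
  have hT1 : ∀ x : Fin n, ({Sum.inl (x, 0), Sum.inl (x, 1), Sum.inl (x, 2)} :
      Multiset (Pt (Fin n) 0)) ∈ T1 := fun x => Multiset.mem_map_of_mem _ (Finset.mem_univ x)
  have hT : ∀ B ∈ T0 + T1, Tri B := by
    intro B hB
    rcases Multiset.mem_add.1 hB with h | h
    · exact h1 B h
    · obtain ⟨x, -, rfl⟩ := Multiset.mem_map.1 h
      exact tri_triple (by simp) (by simp) (by simp)
  have hmix : ∀ a b : Fin n, ∀ i : Fin 3, 1 ≤ conc (T0 + T1) (Sum.inl (a, i)) (Sum.inl (b, i + 1)) := by
    intro a b i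
    obtain ⟨y, hy⟩ := hs a b
    by_cases hay : a = y
    · subst hay
      rw [hi] at hy
      subst hy
      apply one_le_conc (Multiset.mem_add.2 (Or.inr (hT1 a)))
      · fin_cases i <;> simp
      · fin_cases i <;> simp
    · apply one_le_conc (Multiset.mem_add.2 (Or.inl (h3 a y hay i)))
      · simp
      · simp [hy]
  refine ⟨T0 + T1, hT, fun p q hpq => ?_⟩
  refine conc_exact _ hT (fun _ _ => 1) ?_ ?_ hpq
  · rintro (⟨a, i⟩ | k) (⟨b, j⟩ | l) hpq
    · rcases fin3_cases i j with rfl | rfl | rfl
      · have hab : a ≠ b := by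
          rintro rfl
          exact hpq rfl
        apply one_le_conc (Multiset.mem_add.2 (Or.inl (h3 a b hab j)))
        · simp
        · simp
      · exact hmix a b i
      · rw [conc_comm]
        exact hmix b a j
    · exact l.elim0
    · exact k.elim0
    · exact k.elim0
  · rw [psum_const, Multiset.card_add]
    have hcard : T1.card = n := by simp [T1]
    have hV : Fintype.card (Pt (Fin n) 0) = 3 * n := by
      simp only [Fintype.card_sum, Fintype.card_prod, Fintype.card_fin]
      ring
    rw [hcard, hV]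
    obtain ⟨m, rfl⟩ : ∃ m, n = m + 1 := ⟨n - 1, by obtain ⟨t, ht⟩ := hn; omega⟩
    simp only [Nat.add_sub_cancel] at h2
    have e1 : 3 * (m + 1) - 1 = 3 * m + 2 := by omega
    rw [e1]
    nlinarith

/-- a half idempotent commutative operation of even order `2 t` -/
theorem exists_halfidem (t : ℕ) : ∃ op : Fin (2 * t) → Fin (2 * t) → Fin (2 * t),
    (∀ a b, op a b = op b a) ∧ (∀ a c, ∃ b, op a b = c) ∧
    (∀ a, a.val < t → op a a = a) ∧ ∀ a, t ≤ a.val → (op a a).val + t = a.val := by
  rcases Nat.eq_zero_or_pos t with rfl | ht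
  · exact ⟨fun a _ => a, fun a => a.elim0, fun a => a.elim0, fun a => a.elim0, fun a => a.elim0⟩
  · let sg : ℕ → ℕ := fun z => if z % 2 = 0 then z / 2 else z / 2 + t
    have hsg : ∀ z, z < 2 * t → sg z < 2 * t := by
      intro z hz
      simp only [sg]
      split_ifs <;> omega
    refine ⟨fun a b => ⟨sg ((a.val + b.val) % (2 * t)), hsg _ (Nat.mod_lt _ (by omega))⟩,
      ?_, ?_, ?_, ?_⟩
    · intro a b
      simp only [Nat.add_comm]
    · intro a c
      let z : ℕ := if c.val < t then 2 * c.val else 2 * (c.val - t) + 1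
      have hz : z < 2 * t := by
        simp only [z]
        have := c.isLt
        split_ifs <;> omega
      refine ⟨⟨(z + 2 * t - a.val) % (2 * t), Nat.mod_lt _ (by omega)⟩, ?_⟩
      apply Fin.ext
      simp only
      have h1 : (a.val + (z + 2 * t - a.val) % (2 * t)) % (2 * t) = z := by
        rw [Nat.add_mod_mod]
        have : a.val + (z + 2 * t - a.val) = z + 2 * t := by
          have := a.isLt
          omega
        rw [this, Nat.add_mod_right, Nat.mod_eq_of_lt hz]
      rw [h1]
      simp only [sg, z]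
      have := c.isLt
      split_ifs <;> omega
    · intro a ha
      apply Fin.ext
      simp only
      rw [Nat.mod_eq_of_lt (by omega)]
      simp only [sg]
      split_ifs <;> omega
    · intro a ha
      simp only
      have h1 : (a.val + a.val) % (2 * t) = 2 * a.val - 2 * t := by
        have := a.isLt
        rw [Nat.mod_eq_sub_mod (by omega), Nat.mod_eq_of_lt (by omega)]
        omega
      rw [h1]
      simp only [sg]
      split_ifs <;> omega

/-- orders `6 t + 1` (Skolem) -/
theorem sts_skolem (t : ℕ) : STS (Pt (Fin (2 * t)) 1) := by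
  obtain ⟨op, hc, hs, hlo, hhi⟩ := exists_halfidem t
  obtain ⟨T0, h1, h2, h3⟩ := crossHalf 1 (fun _ => op) (fun _ => hc)
  let lo : Fin t → Fin (2 * t) := fun x => ⟨x.val, by omega⟩
  let hi : Fin t → Fin (2 * t) := fun x => ⟨x.val + t, by omega⟩
  let A : Fin t → Multiset (Pt (Fin (2 * t)) 1) := fun x =>
    {Sum.inl (lo x, 0), Sum.inl (lo x, 1), Sum.inl (lo x, 2)}
  let Bk : Fin t × Fin 3 → Multiset (Pt (Fin (2 * t)) 1) := fun x =>
    {Sum.inr 0, Sum.inl (hi x.1, x.2), Sum.inl (lo x.1, x.2 + 1)}
  let T1 : Multiset (Multiset (Pt (Fin (2 * t)) 1)) := (univ : Finset (Fin t)).val.map A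
  let T2 : Multiset (Multiset (Pt (Fin (2 * t)) 1)) := (univ : Finset (Fin t × Fin 3)).val.map Bk
  have hA : ∀ x, A x ∈ T0 + T1 + T2 := fun x =>
    Multiset.mem_add.2 (Or.inl (Multiset.mem_add.2 (Or.inr
      (Multiset.mem_map_of_mem _ (Finset.mem_univ x)))))
  have hB : ∀ x, Bk x ∈ T0 + T1 + T2 := fun x =>
    Multiset.mem_add.2 (Or.inr (Multiset.mem_map_of_mem _ (Finset.mem_univ x)))
  have hT : ∀ B ∈ T0 + T1 + T2, Tri B := by
    intro B hB
    rcases Multiset.mem_add.1 hB with h | h
    · rcases Multiset.mem_add.1 h with h | h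
      · exact h1 B h
      · obtain ⟨x, -, rfl⟩ := Multiset.mem_map.1 h
        exact tri_triple (by simp) (by simp) (by simp)
    · obtain ⟨x, -, rfl⟩ := Multiset.mem_map.1 h
      refine tri_triple (by simp) (by simp) ?_
      intro h
      exact fin3_ne x.2 (congrArg Prod.snd (Sum.inl.inj h))
  have hcases : ∀ a : Fin (2 * t), (∃ x, a = lo x) ∨ ∃ x, a = hi x := by
    intro a
    by_cases h : a.val < t
    · exact Or.inl ⟨⟨a.val, h⟩, rfl⟩
    · refine Or.inr ⟨⟨a.val - t, by omega⟩, ?_⟩
      apply Fin.ext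
      simp only [hi]
      omega
  have hmix : ∀ a b : Fin (2 * t), ∀ i : Fin 3,
      1 ≤ conc (T0 + T1 + T2) (Sum.inl (a, i)) (Sum.inl (b, i + 1)) := by
    intro a b i
    obtain ⟨y, hy⟩ := hs a b
    by_cases hay : a = y
    · subst hay
      rcases hcases a with ⟨x, rfl⟩ | ⟨x, rfl⟩
      · rw [hlo _ x.isLt] at hy
        subst hy
        apply one_le_conc (hA x)
        · fin_cases i <;> simp [A]
        · fin_cases i <;> simp [A]
      · have hb : b = lo x := by
          have := hhi (hi x) (by simp [hi])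
          rw [hy] at this
          apply Fin.ext
          simp only [hi, lo] at this ⊢
          omega
        subst hb
        apply one_le_conc (hB (x, i))
        · simp [Bk]
        · simp [Bk]
    · apply one_le_conc (Multiset.mem_add.2 (Or.inl (Multiset.mem_add.2 (Or.inl (h3 a y hay i)))))
      · simp
      · simp [hy]
  have hinf : ∀ a : Fin (2 * t), ∀ i : Fin 3, ∀ k : Fin 1,
      1 ≤ conc (T0 + T1 + T2) (Sum.inl (a, i)) (Sum.inr k) := by
    intro a i k
    obtain rfl : k = 0 := Subsingleton.elim _ _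
    rcases hcases a with ⟨x, rfl⟩ | ⟨x, rfl⟩
    · apply one_le_conc (hB (x, i - 1))
      · simp [Bk]
      · simp [Bk]
    · apply one_le_conc (hB (x, i))
      · simp [Bk]
      · simp [Bk]
  refine ⟨T0 + T1 + T2, hT, fun p q hpq => ?_⟩
  refine conc_exact _ hT (fun _ _ => 1) ?_ ?_ hpq
  · rintro (⟨a, i⟩ | k) (⟨b, j⟩ | l) hpq
    · rcases fin3_cases i j with rfl | rfl | rfl
      · have hab : a ≠ b := by
          rintro rfl
          exact hpq rfl
        apply one_le_conc (Multiset.mem_add.2 (Or.inl (Multiset.mem_add.2 (Or.inl (h3 a b hab j)))))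
        · simp
        · simp
      · exact hmix a b i
      · rw [conc_comm]
        exact hmix b a j
    · exact hinf a i l
    · rw [conc_comm]
      exact hinf b j k
    · exact absurd (congrArg Sum.inr (Subsingleton.elim k l)) hpq
  · rw [psum_const, Multiset.card_add, Multiset.card_add]
    have hc1 : T1.card = t := by simp [T1]
    have hc2 : T2.card = 3 * t := by simp [T2, Nat.mul_comm]
    have hV : Fintype.card (Pt (Fin (2 * t)) 1) = 6 * t + 1 := by
      simp only [Fintype.card_sum, Fintype.card_prod, Fintype.card_fin]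
      ring
    rw [hc1, hc2, hV]
    rcases Nat.eq_zero_or_pos t with rfl | ht
    · simp at h2 ⊢
      omega
    · obtain ⟨m, rfl⟩ : ∃ m, t = m + 1 := ⟨t - 1, by omega⟩
      have e1 : 2 * (m + 1) - 1 = 2 * m + 1 := by omega
      rw [e1] at h2
      have e2 : 6 * (m + 1) + 1 - 1 = 6 * m + 6 := by omega
      rw [e2]
      nlinarith

/-- Near-Steiner systems: one pair is covered three times, all others once. -/
def Near (V : Type) [DecidableEq V] : Prop :=
  ∃ (T : Multiset (Multiset V)) (u w : V), (∀ B ∈ T, Tri B) ∧ u ≠ w ∧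
    ∀ i j, i ≠ j → conc T i j = 1 + ((if i = u ∧ j = w then 2 else 0) +
      if i = w ∧ j = u then 2 else 0)

theorem psum_ind {V : Type} [DecidableEq V] [Fintype V] {u w : V} (h : u ≠ w) :
    psum (fun i j : V => if i = u ∧ j = w then 2 else 0) = 2 := by
  have h1 : ∀ p q : V, (if p = q then 0 else if p = u ∧ q = w then 2 else 0) =
      if p = u then (if q = w then 2 else 0) else 0 := by
    intro p q
    by_cases hp : p = u
    · by_cases hq : q = w
      · subst hp; subst hq; simp [h]
      · simp [hp, hq]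
    · simp [hp]
  unfold psum
  simp only [h1]
  simp

end Pool.Agent.Helper52.VB
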