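import Mathlib
import Pool.Agent.Helper52.VB3.Odd

/-!
Near-Steiner systems of order `6 t + 5`.
-/

set_option autoImplicit false

namespace Pool.Agent.Helper52.VB

open Finset

theorem near (t : ℕ) : Near (Pt (Fin (2 * t + 1)) 2) := by
  classical
  obtain ⟨op, hc, hi, hs⟩ := exists_mid' (v := 2 * t + 1) ⟨t, rfl⟩
  let al : Fin (2 * t + 1) → Fin (2 * t + 1) := fun x =>
    if h : x.val < t then ⟨x.val + t, by omega⟩ else
      if x.val < 2 * t then ⟨x.val - t, by omega⟩ else x
  have hal : ∀ x, al (al x) = x := by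
    intro x
    have h0 := x.isLt
    by_cases h1 : x.val < t
    · have e1 : al x = ⟨x.val + t, by omega⟩ := by simp only [al, dif_pos h1]
      rw [e1]
      simp only [al]
      rw [dif_neg (by omega), if_pos (by omega)]
      apply Fin.ext
      simp only
      omega
    · by_cases h2 : x.val < 2 * t
      · have e1 : al x = ⟨x.val - t, by omega⟩ := by simp only [al, dif_neg h1, if_pos h2]
        rw [e1]
        simp only [al]
        rw [dif_pos (by omega)]
        apply Fin.ext
        simp only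
        omega
      · have e1 : al x = x := by simp only [al, dif_neg h1, if_neg h2]
        rw [e1, e1]
  obtain ⟨T0, h1, h2, h3⟩ := crossHalf 2 (fun i a b => if i = 2 then al (op a b) else op a b)
    (fun i a b => by simp only [hc a b])
  let lo : Fin t → Fin (2 * t + 1) := fun x => ⟨x.val, by omega⟩
  let hi' : Fin t → Fin (2 * t + 1) := fun x => ⟨x.val + t, by omega⟩
  let mid : Fin (2 * t + 1) := ⟨2 * t, by omega⟩
  have hlohi : ∀ x, lo x ≠ hi' x := by
    intro x h
    have := congrArg Fin.val h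
    simp only [lo, hi'] at this
    have := x.isLt
    omega
  have hallo : ∀ x, al (lo x) = hi' x := by
    intro x
    apply Fin.ext
    simp [al, lo, hi']
  have halhi : ∀ x, al (hi' x) = lo x := by
    intro x
    rw [← hallo, hal]
  have halmid : al mid = mid := by
    simp only [al, mid]
    rw [dif_neg (by omega), if_neg (by omega)]
  have hcases : ∀ a : Fin (2 * t + 1), (∃ x, a = lo x) ∨ (∃ x, a = hi' x) ∨ a = mid := by
    intro a
    have := a.isLt
    by_cases h : a.val < t
    · exact Or.inl ⟨⟨a.val, h⟩, rfl⟩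
    · by_cases h' : a.val < 2 * t
      · refine Or.inr (Or.inl ⟨⟨a.val - t, by omega⟩, ?_⟩)
        apply Fin.ext
        simp only [hi']
        omega
      · refine Or.inr (Or.inr ?_)
        apply Fin.ext
        simp only [mid]
        omega
  let b0 : Fin t → Multiset (Pt (Fin (2 * t + 1)) 2) := fun x => {Sum.inr 0, Sum.inl (lo x, 0), Sum.inl (lo x, 1)}
  let b1 : Fin t → Multiset (Pt (Fin (2 * t + 1)) 2) := fun x => {Sum.inr 1, Sum.inl (lo x, 1), Sum.inl (lo x, 2)}
  let b2 : Fin t → Multiset (Pt (Fin (2 * t + 1)) 2) := fun x => {Sum.inr 0, Sum.inl (lo x, 2), Sum.inl (hi' x, 0)}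
  let b3 : Fin t → Multiset (Pt (Fin (2 * t + 1)) 2) := fun x => {Sum.inr 1, Sum.inl (hi' x, 0), Sum.inl (hi' x, 1)}
  let b4 : Fin t → Multiset (Pt (Fin (2 * t + 1)) 2) := fun x => {Sum.inr 0, Sum.inl (hi' x, 1), Sum.inl (hi' x, 2)}
  let b5 : Fin t → Multiset (Pt (Fin (2 * t + 1)) 2) := fun x => {Sum.inr 1, Sum.inl (hi' x, 2), Sum.inl (lo x, 0)}
  let T1 : Multiset (Multiset (Pt (Fin (2 * t + 1)) 2)) := ∑ x : Fin t, {b0 x, b1 x, b2 x, b3 x, b4 x, b5 x}
  let D : Fin 3 → Multiset (Pt (Fin (2 * t + 1)) 2) := fun i => {Sum.inr 0, Sum.inr 1, Sum.inl (mid, i)}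
  let C : Multiset (Pt (Fin (2 * t + 1)) 2) := {Sum.inl (mid, 0), Sum.inl (mid, 1), Sum.inl (mid, 2)}
  let T2 : Multiset (Multiset (Pt (Fin (2 * t + 1)) 2)) := {D 0, D 1, D 2}
  let T3 : Multiset (Multiset (Pt (Fin (2 * t + 1)) 2)) := {C}
  have hm0 : ∀ B ∈ T0, B ∈ T0 + T1 + T2 + T3 := fun B hB => by
    simp only [Multiset.mem_add]; tauto
  have hm1 : ∀ B ∈ T1, B ∈ T0 + T1 + T2 + T3 := fun B hB => by
    simp only [Multiset.mem_add]; tauto
  have hm2 : ∀ B ∈ T2, B ∈ T0 + T1 + T2 + T3 := fun B hB => by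
    simp only [Multiset.mem_add]; tauto
  have hm3 : ∀ B ∈ T3, B ∈ T0 + T1 + T2 + T3 := fun B hB => by
    simp only [Multiset.mem_add]; tauto
  have hb : ∀ x, b0 x ∈ T1 ∧ b1 x ∈ T1 ∧ b2 x ∈ T1 ∧ b3 x ∈ T1 ∧ b4 x ∈ T1 ∧ b5 x ∈ T1 := by
    intro x
    refine ⟨?_, ?_, ?_, ?_, ?_, ?_⟩ <;>
    · refine Multiset.mem_sum.2 ⟨x, Finset.mem_univ x, ?_⟩
      simp only [Multiset.insert_eq_cons, Multiset.mem_cons, Multiset.mem_singleton, true_or,
        or_true]
  have hD : ∀ i, D i ∈ T2 := by
    intro i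
    simp only [T2, Multiset.insert_eq_cons, Multiset.mem_cons, Multiset.mem_singleton]
    fin_cases i <;> simp
  have hC : C ∈ T3 := Multiset.mem_singleton_self C
  have hT1 : ∀ B ∈ T1, Tri B := by
    intro B hB
    obtain ⟨x, -, hx⟩ := Multiset.mem_sum.1 hB
    simp only [Multiset.insert_eq_cons, Multiset.mem_cons, Multiset.mem_singleton] at hx
    have := hlohi x
    rcases hx with rfl | rfl | rfl | rfl | rfl | rfl <;>
      exact tri_triple (by simp) (by simp) (by simp)
  have hT2 : ∀ B ∈ T2, Tri B := by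
    intro B hB
    simp only [T2, Multiset.insert_eq_cons, Multiset.mem_cons, Multiset.mem_singleton] at hB
    rcases hB with rfl | rfl | rfl <;> exact tri_triple (by simp) (by simp) (by simp)
  have hT : ∀ B ∈ T0 + T1 + T2 + T3, Tri B := by
    intro B hB
    simp only [Multiset.mem_add] at hB
    rcases hB with ((h | h) | h) | h
    · exact h1 B h
    · exact hT1 B h
    · exact hT2 B h
    · rw [Multiset.mem_singleton.1 h]
      exact tri_triple (by simp) (by simp) (by simp)
  have hmixb : ∀ a : Fin (2 * t + 1), ∀ i : Fin 3,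
      1 ≤ conc (T0 + T1 + T2 + T3) (Sum.inl (a, i)) (Sum.inl ((if i = 2 then al a else a), i + 1)) := by
    intro a i
    rcases hcases a with ⟨x, rfl⟩ | ⟨x, rfl⟩ | rfl
    · fin_cases i
      · exact one_le_conc (hm1 _ (hb x).1) (by simp [b0]) (by simp [b0])
      · exact one_le_conc (hm1 _ (hb x).2.1) (by simp [b1]) (by simp [b1])
      · exact one_le_conc (hm1 _ (hb x).2.2.1) (by simp [b2]) (by simp [b2, hallo])
    · fin_cases i
      · exact one_le_conc (hm1 _ (hb x).2.2.2.1) (by simp [b3]) (by simp [b3])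
      · exact one_le_conc (hm1 _ (hb x).2.2.2.2.1) (by simp [b4]) (by simp [b4])
      · exact one_le_conc (hm1 _ (hb x).2.2.2.2.2) (by simp [b5]) (by simp [b5, halhi])
    · fin_cases i
      · exact one_le_conc (hm3 _ hC) (by simp [C]) (by simp [C])
      · exact one_le_conc (hm3 _ hC) (by simp [C]) (by simp [C])
      · exact one_le_conc (hm3 _ hC) (by simp [C]) (by simp [C, halmid])
  have hmix : ∀ a b : Fin (2 * t + 1), ∀ i : Fin 3,
      1 ≤ conc (T0 + T1 + T2 + T3) (Sum.inl (a, i)) (Sum.inl (b, i + 1)) := by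
    intro a b i
    obtain ⟨y, hy⟩ : ∃ y, (if i = 2 then al (op a y) else op a y) = b := by
      by_cases h : i = 2
      · obtain ⟨y, hy⟩ := hs a (al b)
        exact ⟨y, by rw [if_pos h, hy, hal]⟩
      · obtain ⟨y, hy⟩ := hs a b
        exact ⟨y, by rw [if_neg h, hy]⟩
    by_cases hay : a = y
    · subst hay
      rw [hi] at hy
      rw [← hy]
      exact hmixb a i
    · apply one_le_conc (hm0 _ (h3 a y hay i))
      · simp
      · simp [hy]
  have hinf : ∀ a : Fin (2 * t + 1), ∀ i : Fin 3, ∀ k : Fin 2,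
      1 ≤ conc (T0 + T1 + T2 + T3) (Sum.inl (a, i)) (Sum.inr k) := by
    intro a i k
    rcases hcases a with ⟨x, rfl⟩ | ⟨x, rfl⟩ | rfl
    · fin_cases k
      · fin_cases i
        · exact one_le_conc (hm1 _ (hb x).1) (by simp [b0]) (by simp [b0])
        · exact one_le_conc (hm1 _ (hb x).1) (by simp [b0]) (by simp [b0])
        · exact one_le_conc (hm1 _ (hb x).2.2.1) (by simp [b2]) (by simp [b2])
      · fin_cases i
        · exact one_le_conc (hm1 _ (hb x).2.2.2.2.2) (by simp [b5]) (by simp [b5])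
        · exact one_le_conc (hm1 _ (hb x).2.1) (by simp [b1]) (by simp [b1])
        · exact one_le_conc (hm1 _ (hb x).2.1) (by simp [b1]) (by simp [b1])
    · fin_cases k
      · fin_cases i
        · exact one_le_conc (hm1 _ (hb x).2.2.1) (by simp [b2]) (by simp [b2])
        · exact one_le_conc (hm1 _ (hb x).2.2.2.2.1) (by simp [b4]) (by simp [b4])
        · exact one_le_conc (hm1 _ (hb x).2.2.2.2.1) (by simp [b4]) (by simp [b4])
      · fin_cases i
        · exact one_le_conc (hm1 _ (hb x).2.2.2.1) (by simp [b3]) (by simp [b3])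
        · exact one_le_conc (hm1 _ (hb x).2.2.2.1) (by simp [b3]) (by simp [b3])
        · exact one_le_conc (hm1 _ (hb x).2.2.2.2.2) (by simp [b5]) (by simp [b5])
    · apply one_le_conc (hm2 _ (hD i))
      · simp [D]
      · fin_cases k <;> simp [D]
  have h01 : 3 ≤ conc (T0 + T1 + T2 + T3) (Sum.inr 0) (Sum.inr 1) := by
    rw [conc_add, conc_add]
    have : conc T2 (Sum.inr 0) (Sum.inr 1) = 3 := by
      simp [T2, D, conc]
    omega
  refine ⟨T0 + T1 + T2 + T3, Sum.inr 0, Sum.inr 1, hT, by simp, fun p q hpq => ?_⟩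
  refine conc_exact _ hT (fun i j => 1 + ((if i = Sum.inr 0 ∧ j = Sum.inr 1 then 2 else 0) +
      if i = Sum.inr 1 ∧ j = Sum.inr 0 then 2 else 0)) ?_ ?_ hpq
  · rintro (⟨a, i⟩ | k) (⟨b, j⟩ | l) hpq
    · simp only [reduceCtorEq, false_and, if_false, add_zero]
      rcases fin3_cases i j with rfl | rfl | rfl
      · have hab : a ≠ b := by
          rintro rfl
          exact hpq rfl
        apply one_le_conc (hm0 _ (h3 a b hab j))
        · simp
        · simp
      · exact hmix a b i
      · rw [conc_comm]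
        exact hmix b a j
    · simp only [reduceCtorEq, false_and, if_false, add_zero]
      exact hinf a i l
    · simp only [reduceCtorEq, and_false, if_false, add_zero]
      rw [conc_comm]
      exact hinf b j k
    · fin_cases k <;> fin_cases l
      · exact absurd rfl hpq
      · simpa using h01
      · rw [conc_comm]
        simpa using h01
      · exact absurd rfl hpq
  · have e1 : psum (fun i j : Pt (Fin (2 * t + 1)) 2 => 1 +
        ((if i = Sum.inr 0 ∧ j = Sum.inr 1 then 2 else 0) +
        if i = Sum.inr 1 ∧ j = Sum.inr 0 then 2 else 0)) =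
        1 * (Fintype.card (Pt (Fin (2 * t + 1)) 2) * (Fintype.card (Pt (Fin (2 * t + 1)) 2) - 1))
          + (2 + 2) := by
      rw [psum_add, psum_add, psum_const, psum_ind (by simp), psum_ind (by simp)]
    rw [e1]
    have hV : Fintype.card (Pt (Fin (2 * t + 1)) 2) = 6 * t + 5 := by
      simp only [Fintype.card_sum, Fintype.card_prod, Fintype.card_fin]
      ring
    have hc1 : T1.card = 6 * t := by
      simp [T1, Multiset.card_sum, Nat.mul_comm]
    have hc2 : T2.card = 3 := by simp [T2]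
    have hc3 : T3.card = 1 := by simp [T3]
    rw [hV, Multiset.card_add, Multiset.card_add, Multiset.card_add, hc1, hc2, hc3]
    have e2 : 6 * t + 5 - 1 = 6 * t + 4 := by omega
    have e3 : 2 * t + 1 - 1 = 2 * t := by omega
    rw [e2]
    rw [e3] at h2
    nlinarith

end Pool.Agent.Helper52.VB
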