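import Mathlib
import Pool.Agent.Helper52.VB3.Near

/-!
Systems of triples with prescribed size and parity of the concurrences.
-/

set_option autoImplicit false

namespace Pool.Agent.Helper52.VB

open Finset

variable {V : Type} [DecidableEq V]

theorem conc_equiv {W : Type} [DecidableEq W] (e : V ≃ W) (T : Multiset (Multiset V)) (i j : W) :
    conc (T.map (Multiset.map e)) i j = conc T (e.symm i) (e.symm j) := by
  rw [← conc_map e.injective, e.apply_symm_apply, e.apply_symm_apply]

theorem tri_map_all {W : Type} [DecidableEq W] (e : V ≃ W) {T : Multiset (Multiset V)}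
    (hT : ∀ B ∈ T, Tri B) : ∀ B ∈ T.map (Multiset.map e), Tri B := by
  intro B hB
  obtain ⟨B', hB', rfl⟩ := Multiset.mem_map.1 hB
  exact (hT B' hB').map e.injective

theorem exists_perm {p q u w : V} (h1 : p ≠ q) (h2 : u ≠ w) : ∃ e : V ≃ V, e p = u ∧ e q = w := by
  refine ⟨(Equiv.swap p u).trans (Equiv.swap ((Equiv.swap p u) q) w), ?_, ?_⟩
  · rw [Equiv.trans_apply, Equiv.swap_apply_left]
    apply Equiv.swap_apply_of_ne_of_ne
    · intro h
      apply h1
      apply (Equiv.swap p u).injective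
      rw [← h, Equiv.swap_apply_left]
    · exact h2
  · rw [Equiv.trans_apply, Equiv.swap_apply_left]

/-- even systems -/
def Ev (V : Type) [DecidableEq V] (μ s : ℕ) : Prop :=
  ∃ T : Multiset (Multiset V), (∀ B ∈ T, Tri B) ∧ T.card = 2 * s ∧
    ∀ i j, i ≠ j → ∃ c, c ≤ μ ∧ conc T i j = 2 * c

/-- odd systems -/
def Od (V : Type) [DecidableEq V] (μ m : ℕ) : Prop :=
  ∃ T : Multiset (Multiset V), (∀ B ∈ T, Tri B) ∧ T.card = m ∧
    ∀ i j, i ≠ j → ∃ c, c ≤ μ ∧ conc T i j = 2 * c + 1

theorem Ev.zero (μ : ℕ) : Ev V μ 0 :=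
  ⟨0, by simp, by simp, fun i j _ => ⟨0, Nat.zero_le _, by simp [conc_zero]⟩⟩

theorem Ev.add {μ μ' s s' : ℕ} (h : Ev V μ s) (h' : Ev V μ' s') : Ev V (μ + μ') (s + s') := by
  obtain ⟨T, h1, h2, h3⟩ := h
  obtain ⟨T', h1', h2', h3'⟩ := h'
  refine ⟨T + T', ?_, by rw [Multiset.card_add, h2, h2']; ring, ?_⟩
  · intro B hB
    rcases Multiset.mem_add.1 hB with h | h
    · exact h1 B h
    · exact h1' B h
  · intro i j hij
    obtain ⟨c, hc, hc'⟩ := h3 i j hij
    obtain ⟨d, hd, hd'⟩ := h3' i j hij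
    exact ⟨c + d, by omega, by rw [conc_add, hc', hd']; ring⟩

theorem Od.add {μ μ' m s' : ℕ} (h : Od V μ m) (h' : Ev V μ' s') : Od V (μ + μ') (m + 2 * s') := by
  obtain ⟨T, h1, h2, h3⟩ := h
  obtain ⟨T', h1', h2', h3'⟩ := h'
  refine ⟨T + T', ?_, by rw [Multiset.card_add, h2, h2'], ?_⟩
  · intro B hB
    rcases Multiset.mem_add.1 hB with h | h
    · exact h1 B h
    · exact h1' B h
  · intro i j hij
    obtain ⟨c, hc, hc'⟩ := h3 i j hij
    obtain ⟨d, hd, hd'⟩ := h3' i j hij
    exact ⟨c + d, by omega, by rw [conc_add, hc', hd']; ring⟩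

theorem E2.ev {s : ℕ} (h : E2 V s) : Ev V 1 s := by
  obtain ⟨T, h1, h2, h3⟩ := h
  refine ⟨T, h1, h2, fun i j hij => ?_⟩
  rcases h3 i j hij with h | h
  · exact ⟨0, by omega, h⟩
  · exact ⟨1, le_rfl, h⟩

/-- a two-fold system which is not complete can be moved so that a given pair is not covered -/
theorem e2_zero {v s : ℕ} (hv : 3 ≤ v) (hs : 6 * s < v * (v - 1)) {u w : Fin v} (huw : u ≠ w) :
    ∃ T : Multiset (Multiset (Fin v)), (∀ B ∈ T, Tri B) ∧ T.card = 2 * s ∧
      (∀ i j, i ≠ j → conc T i j = 0 ∨ conc T i j = 2) ∧ conc T u w = 0 := by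
  obtain ⟨T, h1, h2, h3⟩ := e2_all v hv s hs.le
  have h4 : ∃ p q, p ≠ q ∧ conc T p q = 0 := by
    by_contra hcon
    push Not at hcon
    have h5 : psum (conc T) = 2 * (v * (v - 1)) := by
      have : psum (conc T) = psum (fun _ _ : Fin v => 2) :=
        psum_congr fun p q hpq => (h3 p q hpq).resolve_left (hcon p q hpq)
      rw [this, psum_const, Fintype.card_fin]
    rw [psum_conc_tri T h1, h2] at h5
    omega
  obtain ⟨p, q, hpq, h0⟩ := h4
  obtain ⟨e, hp, hq⟩ := exists_perm hpq huw
  refine ⟨T.map (Multiset.map e), tri_map_all e h1, by rw [Multiset.card_map, h2], ?_, ?_⟩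
  · intro i j hij
    rw [conc_equiv]
    exact h3 _ _ fun h => hij (e.symm.injective h)
  · rw [conc_equiv, ← hp, ← hq, e.symm_apply_apply, e.symm_apply_apply, h0]

/-- three copies of a maximal two-fold system on `v = 2 mod 3` points can be completed by two
triples -/
theorem ts_six {v c : ℕ} (hv : 3 ≤ v) (hc : v * (v - 1) = 6 * c + 2) : Ev (Fin v) 3 (3 * c + 1) := by
  let a : Fin v := ⟨0, by omega⟩
  let b : Fin v := ⟨1, by omega⟩
  let d : Fin v := ⟨2, by omega⟩
  have hab : a ≠ b := by simp [a, b]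
  have had : a ≠ d := by simp [a, d]
  have hbd : b ≠ d := by simp [b, d]
  obtain ⟨T1, h1, c1, e1, z1⟩ := e2_zero (s := c) hv (by omega) hab
  obtain ⟨T2, h2, c2, e2, z2⟩ := e2_zero (s := c) hv (by omega) had
  obtain ⟨T3, h3, c3, e3, z3⟩ := e2_zero (s := c) hv (by omega) hbd
  let B0 : Multiset (Fin v) := {a, b, d}
  have hB0 : Tri B0 := tri_triple hab had hbd
  refine ⟨T1 + T2 + T3 + {B0, B0}, ?_, ?_, ?_⟩
  · intro B hB
    simp only [Multiset.mem_add, Multiset.insert_eq_cons, Multiset.mem_cons,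
      Multiset.mem_singleton, or_self] at hB
    rcases hB with ((h | h) | h) | h
    · exact h1 B h
    · exact h2 B h
    · exact h3 B h
    · rw [h]; exact hB0
  · simp only [Multiset.card_add, c1, c2, c3, Multiset.card_pair]
    ring
  · intro i j hij
    have hx : B0.count i * B0.count j = 0 ∨ (B0.count i * B0.count j = 1 ∧
        (conc T1 i j = 0 ∨ conc T2 i j = 0 ∨ conc T3 i j = 0)) := by
      by_cases hi : i ∈ B0
      · by_cases hj : j ∈ B0
        · right
          rw [Multiset.count_eq_one_of_mem hB0.2 hi, Multiset.count_eq_one_of_mem hB0.2 hj]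
          refine ⟨rfl, ?_⟩
          simp only [B0, Multiset.insert_eq_cons, Multiset.mem_cons,
            Multiset.mem_singleton] at hi hj
          rcases hi with rfl | rfl | rfl <;> rcases hj with rfl | rfl | rfl
          · exact absurd rfl hij
          · exact Or.inl z1
          · exact Or.inr (Or.inl z2)
          · exact Or.inl (by rw [conc_comm]; exact z1)
          · exact absurd rfl hij
          · exact Or.inr (Or.inr z3)
          · exact Or.inr (Or.inl (by rw [conc_comm]; exact z2))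
          · exact Or.inr (Or.inr (by rw [conc_comm]; exact z3))
          · exact absurd rfl hij
        · left
          rw [Multiset.count_eq_zero.2 hj, Nat.mul_zero]
      · left
        rw [Multiset.count_eq_zero.2 hi, Nat.zero_mul]
    have hy : conc ({B0, B0} : Multiset (Multiset (Fin v))) i j =
        2 * (B0.count i * B0.count j) := by
      simp only [conc, Multiset.insert_eq_cons, Multiset.map_cons, Multiset.map_singleton,
        Multiset.sum_cons, Multiset.sum_singleton]
      ring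
    have h1' := e1 i j hij
    have h2' := e2 i j hij
    have h3' := e3 i j hij
    refine ⟨(conc T1 i j + conc T2 i j + conc T3 i j) / 2 + B0.count i * B0.count j, ?_, ?_⟩
    · omega
    · rw [conc_add, conc_add, conc_add, hy]
      omega

theorem choose_mod {v C : ℕ} (hC : v * (v - 1) = 2 * C) : C % 3 = 0 ∨ C % 3 = 1 := by
  rcases Nat.eq_zero_or_pos v with rfl | hv
  · omega
  obtain ⟨u, rfl⟩ : ∃ u, v = u + 1 := ⟨v - 1, by omega⟩
  simp only [Nat.add_sub_cancel] at hC
  have h1 : (u + 1) * u % 3 = 2 * C % 3 := by rw [hC]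
  rw [Nat.mul_mod, Nat.add_mod] at h1
  have : u % 3 = 0 ∨ u % 3 = 1 ∨ u % 3 = 2 := by omega
  rcases this with h | h | h <;> rw [h] at h1 <;> omega

/-- even systems of every possible size -/
theorem ev_all {v C : ℕ} (hv : 3 ≤ v) (hC : v * (v - 1) = 2 * C) :
    ∀ μ s, 3 * s ≤ μ * C → Ev (Fin v) μ s := by
  intro μ
  induction μ using Nat.strong_induction_on with
  | _ μ ih =>
    intro s hs
    rcases Nat.eq_zero_or_pos μ with rfl | hμ
    · obtain rfl : s = 0 := by omega
      exact Ev.zero 0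
    obtain ⟨ν, rfl⟩ : ∃ ν, μ = ν + 1 := ⟨μ - 1, by omega⟩
    obtain ⟨c, r, hcr, hr⟩ : ∃ c r, C = 3 * c + r ∧ (r = 0 ∨ r = 1) :=
      ⟨C / 3, C % 3, by omega, choose_mod hC⟩
    by_cases h1 : s ≤ (ν + 1) * c
    · have hE : E2 (Fin v) (min s c) := e2_all v hv _ (by
        have := Nat.min_le_right s c
        omega)
      have h2 : 3 * (s - min s c) ≤ ν * C := by
        rcases le_total s c with h | h
        · rw [min_eq_left h]; simp
        · rw [min_eq_right h]
          have h3 : s - c ≤ ν * c := by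
            have : (ν + 1) * c = ν * c + c := by ring
            omega
          calc 3 * (s - c) ≤ 3 * (ν * c) := Nat.mul_le_mul_left 3 h3
            _ = ν * (3 * c) := by ring
            _ ≤ ν * C := Nat.mul_le_mul_left ν (by omega)
      have h3 := (ih ν (by omega) _ h2).add hE.ev
      have h4 : s - min s c + min s c = s := by
        have := Nat.min_le_left s c
        omega
      rwa [h4] at h3
    · push Not at h1
      rcases hr with rfl | rfl
      · exfalso
        rw [hcr] at hs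
        have : (ν + 1) * (3 * c + 0) = 3 * ((ν + 1) * c) := by ring
        omega
      · rw [hcr] at hs
        have h2 : (ν + 1) * (3 * c + 1) = 3 * ((ν + 1) * c) + (ν + 1) := by ring
        have h3 : 2 ≤ ν := by omega
        obtain ⟨ρ, rfl⟩ : ∃ ρ, ν = ρ + 2 := ⟨ν - 2, by omega⟩
        have h4 : Ev (Fin v) 3 (3 * c + 1) := ts_six hv (by omega)
        have h5 : 3 * c + 1 ≤ s := by
          have : (ρ + 2 + 1) * c = ρ * c + 3 * c := by ring
          omega
        have h6 : 3 * (s - (3 * c + 1)) ≤ ρ * C := by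
          rw [hcr]
          have : (ρ + 2 + 1) * (3 * c + 1) = ρ * (3 * c + 1) + 3 * (3 * c + 1) := by ring
          omega
        have h7 := (ih ρ (by omega) _ h6).add h4
        have h8 : s - (3 * c + 1) + (3 * c + 1) = s := by omega
        have h9 : ρ + 3 = ρ + 2 + 1 := by ring
        rwa [h8, h9] at h7

theorem STS.od {v C : ℕ} (hC : v * (v - 1) = 2 * C) (h : STS (Fin v)) {μ m : ℕ} (hv : 3 ≤ v)
    (hpar : m % 2 = C % 2) (h1 : C ≤ 3 * m) (h2 : 3 * m ≤ (2 * μ + 1) * C) : Od (Fin v) μ m := by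
  obtain ⟨T, hT, hc⟩ := h
  have h3 : psum (conc T) = 1 * (v * (v - 1)) := by
    have : psum (conc T) = psum (fun _ _ : Fin v => 1) := psum_congr hc
    rw [this, psum_const, Fintype.card_fin]
  rw [psum_conc_tri T hT, hC] at h3
  have h4 : Od (Fin v) 0 T.card := ⟨T, hT, rfl, fun i j hij => ⟨0, le_rfl, hc i j hij⟩⟩
  obtain ⟨s, hs⟩ : ∃ s, m = T.card + 2 * s := ⟨(m - T.card) / 2, by omega⟩
  have h5 : 3 * s ≤ μ * C := by
    have : (2 * μ + 1) * C = 2 * (μ * C) + C := by ring
    omega
  have h6 := h4.add (ev_all hv hC μ s h5)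
  rwa [← hs, Nat.zero_add] at h6

theorem Near.od {v t C : ℕ} (hv : v = 6 * t + 5) (hC : v * (v - 1) = 2 * C) {μ m : ℕ}
    (hpar : m % 2 = C % 2) (h1 : C ≤ 3 * m) (h2 : 3 * m ≤ (2 * μ + 1) * C) : Od (Fin v) μ m := by
  obtain ⟨T0, u0, w0, hT0, huw0, hc0⟩ := near t
  have hcard : Fintype.card (Pt (Fin (2 * t + 1)) 2) = v := by
    simp only [Fintype.card_sum, Fintype.card_prod, Fintype.card_fin]
    omega
  let e := Fintype.equivFinOfCardEq hcard
  obtain ⟨c, hcc⟩ : ∃ c, C = 3 * c + 1 := by
    refine ⟨6 * t * t + 9 * t + 3, ?_⟩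
    subst hv
    have : 6 * t + 5 - 1 = 6 * t + 4 := by omega
    rw [this] at hC
    nlinarith
  -- the number of triples of the near-Steiner system
  have hn : 6 * T0.card = 2 * C + 4 := by
    rw [← psum_conc_tri T0 hT0]
    have : psum (conc T0) = psum (fun i j => 1 + ((if i = u0 ∧ j = w0 then 2 else 0) +
      if i = w0 ∧ j = u0 then 2 else 0)) := psum_congr hc0
    rw [this, psum_add, psum_add, psum_const, psum_ind huw0, psum_ind huw0.symm, hcard, hC]
    ring
  have hμ : 1 ≤ μ := by
    by_contra hcon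
    obtain rfl : μ = 0 := by omega
    omega
  obtain ⟨ν, rfl⟩ : ∃ ν, μ = ν + 1 := ⟨μ - 1, by omega⟩
  obtain ⟨s, hs⟩ : ∃ s, m = (c + 1) + 2 * s := ⟨(m - (c + 1)) / 2, by omega⟩
  have hT0c : T0.card = c + 1 := by omega
  have huw : e u0 ≠ e w0 := fun h => huw0 (e.injective h)
  have hmin := Nat.min_le_right s c
  obtain ⟨T1, h1', c1', e1', z1'⟩ := e2_zero (v := v) (s := min s c) (by omega) (by omega) huw
  have h3 : Od (Fin v) 1 (c + 1 + 2 * min s c) := by
    refine ⟨T0.map (Multiset.map e) + T1, ?_, ?_, ?_⟩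
    · intro B hB
      rcases Multiset.mem_add.1 hB with h | h
      · exact tri_map_all e hT0 B h
      · exact h1' B h
    · rw [Multiset.card_add, Multiset.card_map, hT0c, c1']
    · intro i j hij
      have h4 := e1' i j hij
      have h5 := hc0 (e.symm i) (e.symm j) (fun h => hij (e.symm.injective h))
      rw [conc_add, conc_equiv, h5]
      by_cases hA : e.symm i = u0 ∧ e.symm j = w0
      · have hB : ¬ (e.symm i = w0 ∧ e.symm j = u0) := fun h => huw0 (hA.1.symm.trans h.1)
        rw [if_pos hA, if_neg hB]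
        have hi : i = e u0 := by rw [← hA.1, e.apply_symm_apply]
        have hj : j = e w0 := by rw [← hA.2, e.apply_symm_apply]
        rw [hi, hj, z1']
        exact ⟨1, le_rfl, rfl⟩
      · by_cases hB : e.symm i = w0 ∧ e.symm j = u0
        · rw [if_neg hA, if_pos hB]
          have hi : i = e w0 := by rw [← hB.1, e.apply_symm_apply]
          have hj : j = e u0 := by rw [← hB.2, e.apply_symm_apply]
          rw [hi, hj, conc_comm, z1']
          exact ⟨1, le_rfl, rfl⟩
        · rw [if_neg hA, if_neg hB]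
          rcases h4 with h | h <;> rw [h]
          · exact ⟨0, by omega, rfl⟩
          · exact ⟨1, le_rfl, rfl⟩
  have h6 : 3 * (s - min s c) ≤ ν * C := by
    rcases le_total s c with h | h
    · rw [min_eq_left h]; simp
    · rw [min_eq_right h, hcc]
      rw [hcc] at h2
      have e1 : (2 * (ν + 1) + 1) * (3 * c + 1) = 2 * (ν * (3 * c + 1)) + 3 * (3 * c + 1) := by ring
      omega
  have h7 := h3.add (ev_all (by omega) hC ν _ h6)
  have h8 : c + 1 + 2 * min s c + 2 * (s - min s c) = m := by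
    have := Nat.min_le_left s c
    omega
  rwa [h8, Nat.add_comm 1 ν] at h7

/-- odd systems of every possible size -/
theorem od_all {v C : ℕ} (hv : 3 ≤ v) (hodd : v % 2 = 1) (hC : v * (v - 1) = 2 * C) {μ m : ℕ}
    (hpar : m % 2 = C % 2) (h1 : C ≤ 3 * m) (h2 : 3 * m ≤ (2 * μ + 1) * C) : Od (Fin v) μ m := by
  obtain ⟨t, ht⟩ : ∃ t, v = 6 * t + 1 ∨ v = 6 * t + 3 ∨ v = 6 * t + 5 := ⟨v / 6, by omega⟩
  rcases ht with ht | ht | ht
  · have hcard : Fintype.card (Pt (Fin (2 * t)) 1) = v := by
      simp only [Fintype.card_sum, Fintype.card_prod, Fintype.card_fin]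
      omega
    exact STS.od hC ((sts_skolem t).map (Fintype.equivFinOfCardEq hcard)) hv hpar h1 h2
  · have hcard : Fintype.card (Pt (Fin (2 * t + 1)) 0) = v := by
      simp only [Fintype.card_sum, Fintype.card_prod, Fintype.card_fin]
      omega
    exact STS.od hC ((sts_bose ⟨t, rfl⟩).map (Fintype.equivFinOfCardEq hcard)) hv hpar h1 h2
  · exact Near.od ht hC hpar h1 h2

end Pool.Agent.Helper52.VB
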