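import Mathlib
import Pool.Agent.Helper52.VB3.Comb
import Pool.Agent.Helper52.VBLarge

/-!
Completion of systems of triples to variance-balanced designs, and the necessary conditions.
-/

set_option autoImplicit false

namespace Pool.Agent.Helper52.VB

open Finset

/-- concurrences of the non-binary block `{i, i, j}` -/
theorem count_pair {V : Type} [DecidableEq V] {i j : V} (hij : i ≠ j) {x y : V} (hxy : x ≠ y) :
    ({i, i, j} : Multiset V).count x * ({i, i, j} : Multiset V).count y =
      if (x = i ∧ y = j) ∨ (x = j ∧ y = i) then 2 else 0 := by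
  simp only [Multiset.insert_eq_cons, Multiset.count_cons, Multiset.count_singleton]
  by_cases hxi : x = i
  · by_cases hyj : y = j
    · rw [hxi, hyj]
      simp [hij, hij.symm]
    · have hyi : y ≠ i := fun h => hxy (hxi.trans h.symm)
      simp [hxi, hyj, hyi, hij]
  · by_cases hxj : x = j
    · by_cases hyi : y = i
      · rw [hxj, hyi]
        simp [hij, hij.symm]
      · have hyj : y ≠ j := fun h => hxy (hxj.trans h.symm)
        simp [hxj, hyj, hyi, hij.symm]
    · simp [hxi, hxj]

theorem conc_replicate {V : Type} [DecidableEq V] (n : ℕ) (B : Multiset V) (x y : V) :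
    conc (Multiset.replicate n B) x y = n * (B.count x * B.count y) := by
  simp [conc, Multiset.map_replicate, Multiset.sum_replicate]

/-- filling by non-binary blocks -/
theorem fill3 {v : ℕ} (w : Fin v → Fin v → ℕ) (hw : ∀ i j, w i j = w j i) :
    ∃ D : Multiset (Multiset (Fin v)), (∀ B ∈ D, ∃ i j, i ≠ j ∧ B = {i, i, j}) ∧
      ∀ x y, x ≠ y → conc D x y = 2 * w x y := by
  classical
  let f : Fin v × Fin v → Multiset (Multiset (Fin v)) := fun p =>
    if p.1 < p.2 then Multiset.replicate (w p.1 p.2) {p.1, p.1, p.2} else 0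
  refine ⟨∑ p : Fin v × Fin v, f p, ?_, ?_⟩
  · intro B hB
    rw [Multiset.mem_sum] at hB
    obtain ⟨p, -, hp⟩ := hB
    by_cases h : p.1 < p.2
    · simp only [f, if_pos h] at hp
      exact ⟨p.1, p.2, ne_of_lt h, (Multiset.mem_replicate.1 hp).2⟩
    · simp only [f, if_neg h] at hp
      simp at hp
  · intro x y hxy
    rw [conc_sum]
    have h1 : ∀ p : Fin v × Fin v, conc (f p) x y =
        if p = (min x y, max x y) then 2 * w x y else 0 := by
      rintro ⟨i, j⟩
      by_cases hij : i < j
      · have e1 : conc (f (i, j)) x y = w i j * (if (x = i ∧ y = j) ∨ (x = j ∧ y = i) then 2 else 0) := by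
          simp only [f, if_pos hij]
          rw [conc_replicate, count_pair (ne_of_lt hij) hxy]
        rw [e1]
        rcases lt_or_gt_of_ne hxy with h | h
        · rw [min_eq_left h.le, max_eq_right h.le]
          by_cases h2 : (i, j) = (x, y)
          · rw [if_pos h2]
            obtain ⟨rfl, rfl⟩ := Prod.mk.inj h2
            rw [if_pos (Or.inl ⟨rfl, rfl⟩)]
            ring
          · rw [if_neg h2, if_neg, Nat.mul_zero]
            rintro (⟨h4, h5⟩ | ⟨h4, h5⟩)
            · exact h2 (by rw [h4, h5])
            · rw [h4, h5] at h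
              exact absurd hij (not_lt.2 h.le)
        · rw [min_eq_right h.le, max_eq_left h.le]
          by_cases h2 : (i, j) = (y, x)
          · rw [if_pos h2]
            obtain ⟨rfl, rfl⟩ := Prod.mk.inj h2
            rw [if_pos (Or.inr ⟨rfl, rfl⟩), hw]
            ring
          · rw [if_neg h2, if_neg, Nat.mul_zero]
            rintro (⟨h4, h5⟩ | ⟨h4, h5⟩)
            · rw [h4, h5] at h
              exact absurd hij (not_lt.2 h.le)
            · exact h2 (by rw [h4, h5])
      · have e1 : conc (f (i, j)) x y = 0 := by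
          simp only [f, if_neg hij]
          exact conc_zero x y
        rw [e1, if_neg]
        intro h
        obtain ⟨h2, h3⟩ := Prod.mk.inj h
        apply hij
        rw [h2, h3]
        exact lt_of_le_of_ne (min_le_max) (by
          rcases lt_or_gt_of_ne hxy with h | h
          · rw [min_eq_left h.le, max_eq_right h.le]; exact hxy
          · rw [min_eq_right h.le, max_eq_left h.le]; exact hxy.symm)
    simp [h1]

/-- completing a system of triples -/
theorem complete3 {v l C : ℕ} (hC : v * (v - 1) = 2 * C) (T : Multiset (Multiset (Fin v)))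
    (hT : ∀ B ∈ T, Tri B) (h : ∀ i j, i ≠ j → ∃ e, conc T i j + 2 * e = l) :
    ∃ D : Multiset (Multiset (Fin v)), IsVB v 3 l D ∧ 2 * D.card + T.card = l * C := by
  obtain ⟨E, hE, hE'⟩ := fill3 (fun i j => (l - conc T i j) / 2) (fun i j => by rw [conc_comm])
  have hc : ∀ i j, i ≠ j → conc (T + E) i j = l := by
    intro i j hij
    obtain ⟨e, he⟩ := h i j hij
    rw [conc_add, hE' i j hij]
    omega
  refine ⟨T + E, ⟨?_, hc⟩, ?_⟩
  · intro B hB
    rcases Multiset.mem_add.1 hB with h | h
    · exact isBlock_of_tri (hT B h)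
    · obtain ⟨i, j, hij, rfl⟩ := hE B h
      exact isBlock_pair hij
  · have h1 : psum (conc (T + E)) = l * (v * (v - 1)) := by
      have : psum (conc (T + E)) = psum (fun _ _ : Fin v => l) := psum_congr hc
      rw [this, psum_const, Fintype.card_fin]
    have h2 : psum (conc (T + E)) = psum (conc T) + psum (conc E) := by
      rw [← psum_add]
      exact psum_congr fun p q _ => conc_add T E p q
    rw [h2, psum_conc_tri T hT, psum_conc_pair E hE, hC] at h1
    rw [Multiset.card_add]
    have : l * (2 * C) = 2 * (l * C) := by ring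
    omega

/-- the necessary conditions -/
theorem necessity {v l C : ℕ} (hC : v * (v - 1) = 2 * C) {D : Multiset (Multiset (Fin v))}
    (hD : IsVB v 3 l D) : ∃ m p, D.card = m + p ∧ 3 * m + 2 * p = l * C ∧
      (l % 2 = 1 → C ≤ 3 * m) := by
  classical
  obtain ⟨hB, hc⟩ := hD
  let T := D.filter fun B => B.Nodup
  let E := D.filter fun B => ¬ B.Nodup
  have hTE : T + E = D := Multiset.filter_add_not _ D
  have hT : ∀ B ∈ T, Tri B := by
    intro B h
    rw [Multiset.mem_filter] at h
    exact ⟨(hB B h.1).1, h.2⟩
  have hE : ∀ B ∈ E, ∃ i j, i ≠ j ∧ B = {i, i, j} := by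
    intro B h
    rw [Multiset.mem_filter] at h
    exact nonbinary_form (hB B h.1).1 (hB B h.1).2 h.2
  have h1 : psum (conc D) = l * (v * (v - 1)) := by
    have : psum (conc D) = psum (fun _ _ : Fin v => l) := psum_congr hc
    rw [this, psum_const, Fintype.card_fin]
  have h2 : psum (conc D) = psum (conc T) + psum (conc E) := by
    rw [← psum_add]
    exact psum_congr fun p q _ => by rw [← hTE, conc_add]
  have h3 : 6 * T.card + 4 * E.card = l * (2 * C) := by
    rw [← psum_conc_tri T hT, ← psum_conc_pair E hE, ← h2, h1, hC]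
  refine ⟨T.card, E.card, by rw [← Multiset.card_add, hTE], ?_, ?_⟩
  · have : l * (2 * C) = 2 * (l * C) := by ring
    omega
  · intro hl
    have h4 : ∀ p q : Fin v, p ≠ q → 1 ≤ conc T p q := by
      intro p q hpq
      have h5 : 2 ∣ conc E p q := by
        unfold conc
        apply Multiset.dvd_sum
        intro n hn
        obtain ⟨B, hBE, rfl⟩ := Multiset.mem_map.1 hn
        obtain ⟨i, j, hij, rfl⟩ := hE B hBE
        rw [count_pair hij hpq]
        split_ifs <;> simp
      have h6 : conc T p q + conc E p q = l := by
        rw [← conc_add, hTE]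
        exact hc p q hpq
      omega
    have h7 : psum (fun _ _ : Fin v => 1) ≤ psum (conc T) := psum_mono h4
    rw [psum_const, psum_conc_tri T hT, Fintype.card_fin, hC] at h7
    omega

end Pool.Agent.Helper52.VB
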