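import Mathlib
import Pool.Agent.Helper52.VBDefs
import Pool.Agent.Helper52.VB3.Final

set_option autoImplicit false

open Pool.Agent.Helper52.VB

namespace Pool.Agent.Helper52.VB3

theorem three_up (v : ℕ) (hv : 3 ≤ v) (l b : ℕ) :
    (∃ D : Multiset (Multiset (Fin v)), IsVB v 3 l D ∧ D.card = b) ↔
      (Even (l * (v - 1)) ∧ l * v.choose 2 ≤ 3 * b ∧
        b ≤ l / 2 * v.choose 2 + l % 2 * (v.choose 2 / 3)) := by
  have hC : v * (v - 1) = 2 * v.choose 2 := by
    rw [Nat.choose_two_right]
    have := Nat.even_mul_pred_self v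
    obtain ⟨h, hh⟩ := this
    omega
  generalize v.choose 2 = C at hC
  constructor
  · rintro ⟨D, hD, rfl⟩
    refine ⟨parity_nec (by decide) (by omega) hD, ?_⟩
    obtain ⟨m, p, h1, h2, h3⟩ := necessity hC hD
    have hC3 := choose_mod hC
    rw [h1]
    rcases Nat.mod_two_eq_zero_or_one l with hl | hl
    · obtain ⟨μ, rfl⟩ : ∃ μ, l = 2 * μ := ⟨l / 2, by omega⟩
      have e1 : 2 * μ / 2 = μ := by omega
      have e2 : 2 * μ * C = 2 * (μ * C) := by ring
      rw [hl, e1, Nat.zero_mul, Nat.add_zero]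
      omega
    · obtain ⟨μ, rfl⟩ : ∃ μ, l = 2 * μ + 1 := ⟨l / 2, by omega⟩
      have e1 : (2 * μ + 1) / 2 = μ := by omega
      have e2 : (2 * μ + 1) * C = 2 * (μ * C) + C := by ring
      have h4 := h3 hl
      rw [hl, e1, Nat.one_mul]
      omega
  · rintro ⟨hpar, h1, h2⟩
    rcases Nat.mod_two_eq_zero_or_one l with hl | hl
    · obtain ⟨μ, rfl⟩ : ∃ μ, l = 2 * μ := ⟨l / 2, by omega⟩
      have e1 : 2 * μ / 2 = μ := by omega
      have e2 : 2 * μ * C = 2 * (μ * C) := by ring
      rw [hl, e1, Nat.zero_mul, Nat.add_zero] at h2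
      obtain ⟨T, hT, hTc, hTg⟩ := ev_all hv hC μ (μ * C - b) (by omega)
      obtain ⟨D, hD, hDc⟩ := complete3 (l := 2 * μ) hC T hT (fun i j hij => by
        obtain ⟨c, hc, hc'⟩ := hTg i j hij
        exact ⟨μ - c, by omega⟩)
      exact ⟨D, hD, by omega⟩
    · obtain ⟨μ, rfl⟩ : ∃ μ, l = 2 * μ + 1 := ⟨l / 2, by omega⟩
      have e1 : (2 * μ + 1) / 2 = μ := by omega
      have e2 : (2 * μ + 1) * C = 2 * (μ * C) + C := by ring
      rw [hl, e1, Nat.one_mul] at h2
      have hv2 : v % 2 = 1 := by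
        rcases Nat.even_mul.1 hpar with h | h
        · exact absurd h (by simp)
        · obtain ⟨c, hc⟩ := h
          omega
      obtain ⟨T, hT, hTc, hTg⟩ := od_all (μ := μ) (m := (2 * μ + 1) * C - 2 * b) hv hv2 hC
        (by omega) (by omega) (by omega)
      obtain ⟨D, hD, hDc⟩ := complete3 (l := 2 * μ + 1) hC T hT (fun i j hij => by
        obtain ⟨c, hc, hc'⟩ := hTg i j hij
        exact ⟨μ - c, by omega⟩)
      exact ⟨D, hD, by omega⟩

theorem two_points (l b : ℕ) :
    (∃ D : Multiset (Multiset (Fin 2)), IsVB 2 3 l D ∧ D.card = b) ↔ l = 2 * b := by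
  constructor
  · rintro ⟨D, ⟨hB, hc⟩, rfl⟩
    rw [← hc 0 1 (by decide)]
    have h : ∀ B ∈ D, B.count 0 * B.count 1 = 2 := by
      intro B hBD
      obtain ⟨hcard, hne⟩ := hB B hBD
      have h1 : B.count 0 + B.count 1 = 3 := by
        rw [← hcard, ← Multiset.sum_count_eq_card (s := Finset.univ)
          (fun a _ => Finset.mem_univ a), Fin.sum_univ_two]
      have h2 : B.count 0 ≠ 0 := by
        intro h3
        apply hne 1
        rw [Multiset.eq_replicate]
        refine ⟨hcard, fun b hb => ?_⟩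
        rw [Multiset.count_eq_zero] at h3
        match b, hb with
        | 0, hb => exact absurd hb h3
        | 1, _ => rfl
      have h2' : B.count 1 ≠ 0 := by
        intro h3
        apply hne 0
        rw [Multiset.eq_replicate]
        refine ⟨hcard, fun b hb => ?_⟩
        rw [Multiset.count_eq_zero] at h3
        match b, hb with
        | 1, hb => exact absurd hb h3
        | 0, _ => rfl
      have h4 : B.count 0 = 1 ∨ B.count 0 = 2 := by omega
      rcases h4 with h4 | h4
      · rw [h4, show B.count 1 = 2 by omega]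
      · rw [h4, show B.count 1 = 1 by omega]
    unfold conc
    rw [Multiset.map_congr rfl h, Multiset.map_const', Multiset.sum_replicate, smul_eq_mul,
      Nat.mul_comm]
  · rintro rfl
    refine ⟨Multiset.replicate b {0, 0, 1}, ⟨?_, ?_⟩, by simp⟩
    · intro B hB
      rw [(Multiset.mem_replicate.1 hB).2]
      exact isBlock_pair (by decide)
    · intro i j hij
      rw [conc_replicate, count_pair (by decide) hij]
      have : (i = 0 ∧ j = 1) ∨ (i = 1 ∧ j = 0) := by omega
      rw [if_pos this, Nat.mul_comm]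

end Pool.Agent.Helper52.VB3
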